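import Mathlib

/-!
# A criterion for covering maps

`p : E → X` is a map, the topology of `E` is the coarsest one which is finer than the topology of
a generalized metric `d` and for which `p` is continuous. If points of the same fibre are equal or
at distance at least one, and paths can be lifted locally and uniformly, then `p` is a covering.
-/

open Topology Filter

namespace Pool.Stab

variable {E X : Type*} [TopologicalSpace E] [TopologicalSpace X]

/-- The hypotheses on the map `p` over the open set `S`. -/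
structure CovData (p : E → X) (d : E → E → ENNReal) (S : Set X) : Prop where
  self : ∀ a, d a a = 0
  symm : ∀ a b, d a b = d b a
  triangle : ∀ a b c, d a c ≤ d a b + d b c
  nhds_eq : ∀ e, 𝓝 e = (⨅ r > 0, 𝓟 {a | d a e < r}) ⊓ comap p (𝓝 (p e))
  isOpen : IsOpen S
  eq_of : ∀ a b, p a = p b → d a b < 1 → a = b
  lift : ∀ b ∈ S, ∀ r : ENNReal, 0 < r → ∃ V ∈ 𝓝 b, ∀ e : E, p e ∈ V → ∀ y ∈ V,
    ∃ e', p e' = y ∧ d e e' < r

variable {p : E → X} {d : E → E → ENNReal} {S : Set X}

lemma CovData.continuous (h : CovData p d S) : Continuous p := by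
  rw [continuous_iff_continuousAt]
  intro e
  unfold ContinuousAt
  rw [h.nhds_eq e]
  exact tendsto_comap.mono_left inf_le_right

lemma CovData.ball_mem (h : CovData p d S) (e : E) {r : ENNReal} (hr : 0 < r) :
    {a | d a e < r} ∈ 𝓝 e := by
  rw [h.nhds_eq e]
  refine mem_inf_of_left ?_
  exact mem_iInf_of_mem r (mem_iInf_of_mem hr (mem_principal_self _))

lemma CovData.tendsto (h : CovData p d S) {A : Type*} {F : Filter A} {g : A → E} {e : E}
    (h1 : Tendsto (fun a => p (g a)) F (𝓝 (p e)))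
    (h2 : ∀ r : ENNReal, 0 < r → ∀ᶠ a in F, d (g a) e < r) : Tendsto g F (𝓝 e) := by
  rw [h.nhds_eq e]
  refine tendsto_inf.2 ⟨?_, tendsto_comap_iff.2 h1⟩
  rw [tendsto_iInf]
  intro r
  rw [tendsto_iInf]
  intro hr
  rw [tendsto_principal]
  exact h2 r hr

lemma quarter_pos : (0 : ENNReal) < 1 / 4 := by
  rw [one_div]
  exact ENNReal.inv_pos.2 (by norm_num)

lemma quarter_add (a b c : ENNReal) (ha : a < 1 / 4) (hb : b < 1 / 4) (hc : c < 1 / 4) :
    a + b + c < 1 := by
  have h1 : a + b < 1 / 4 + 1 / 4 := ENNReal.add_lt_add ha hb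
  have h2 : a + b + c < 1 / 4 + 1 / 4 + 1 / 4 := ENNReal.add_lt_add h1 hc
  refine h2.trans_le ?_
  have h3 : (1 / 4 + 1 / 4 + 1 / 4 : ENNReal) ≤ 1 / 4 + 1 / 4 + 1 / 4 + 1 / 4 := le_self_add
  refine h3.trans (le_of_eq ?_)
  have h4 : (1 / 4 + 1 / 4 + 1 / 4 + 1 / 4 : ENNReal) = 4 * (1 / 4) := by ring
  rw [h4, one_div]
  exact ENNReal.mul_inv_cancel (by norm_num) (by norm_num)

lemma CovData.eq_of_three (h : CovData p d S) {a b c e : E} (hp : p a = p e)
    (h1 : d a b < 1 / 4) (h2 : d b c < 1 / 4) (h3 : d c e < 1 / 4) : a = e := by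
  refine h.eq_of a e hp ?_
  refine lt_of_le_of_lt ((h.triangle a c e).trans (add_le_add (h.triangle a b c) le_rfl)) ?_
  exact quarter_add _ _ _ h1 h2 h3

lemma CovData.eq_of_two (h : CovData p d S) {a b e : E} (hp : p a = p e)
    (h1 : d a b < 1 / 4) (h2 : d b e < 1 / 4) : a = e :=
  h.eq_of_three hp h1 h2 (by rw [h.self]; exact quarter_pos)

theorem CovData.isCoveringMapOn (h : CovData p d S) : IsCoveringMapOn p S := by
  intro b₀ hb₀
  have hdisc : DiscreteTopology (p ⁻¹' {b₀}) := by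
    rw [discreteTopology_iff_isOpen_singleton]
    intro x
    rw [isOpen_iff_mem_nhds]
    intro z hz
    rw [Set.mem_singleton_iff] at hz
    subst hz
    have hmem : (Subtype.val : p ⁻¹' {b₀} → E) ⁻¹' {a | d a z.1 < 1 / 4} ∈ 𝓝 z :=
      continuous_subtype_val.continuousAt (h.ball_mem z.1 quarter_pos)
    refine mem_of_superset hmem ?_
    intro y hy
    have hy' : d y.1 z.1 < 1 / 4 := hy
    refine Set.mem_singleton_iff.2 (Subtype.ext ?_)
    have e1 : p y.1 = p z.1 := by
      have h1 : p y.1 = b₀ := y.2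
      have h2 : p z.1 = b₀ := z.2
      rw [h1, h2]
    exact h.eq_of_two e1 hy' (by rw [h.self]; exact quarter_pos)
  obtain ⟨V₀, hV₀, hlift⟩ := h.lift b₀ hb₀ (1 / 4) quarter_pos
  obtain ⟨V, hVsub, hVopen, hbV⟩ := mem_nhds_iff.1 (inter_mem hV₀ (h.isOpen.mem_nhds hb₀))
  have hV1 : V ⊆ V₀ := fun x hx => (hVsub hx).1
  have hV2 : V ⊆ S := fun x hx => (hVsub hx).2
  -- the retraction to the fibre
  have hr : ∀ e : p ⁻¹' V, ∃ f : p ⁻¹' {b₀}, d e.1 f.1 < 1 / 4 := by
    intro e
    obtain ⟨e', h1, h2⟩ := hlift e.1 (hV1 e.2) b₀ (hV1 hbV)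
    exact ⟨⟨e', h1⟩, h2⟩
  choose ρ hρ using hr
  have hs : ∀ bf : V × (p ⁻¹' {b₀}), ∃ e : p ⁻¹' V, p e.1 = bf.1.1 ∧ d bf.2.1 e.1 < 1 / 4 := by
    intro bf
    have h0 : p bf.2.1 = b₀ := bf.2.2
    obtain ⟨e', h1, h2⟩ := hlift bf.2.1 (by rw [h0]; exact hV1 hbV) bf.1.1 (hV1 bf.1.2)
    exact ⟨⟨e', by rw [Set.mem_preimage, h1]; exact bf.1.2⟩, h1, h2⟩
  choose s hs1 hs2 using hs
  refine ⟨hdisc, V, hbV, hVopen, hVopen.preimage h.continuous, ?_⟩
  refine ⟨{ toFun := fun e => (⟨p e.1, e.2⟩, ρ e)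
            invFun := s
            left_inv := ?_
            right_inv := ?_
            continuous_toFun := ?_
            continuous_invFun := ?_ }, fun e => rfl⟩
  · intro e
    refine Subtype.ext ?_
    refine h.eq_of_two (b := (ρ e).1) (by rw [hs1]) ?_ ?_
    · rw [h.symm]
      exact hs2 (⟨p e.1, e.2⟩, ρ e)
    · rw [h.symm]
      exact hρ e
  · rintro ⟨b, f⟩
    refine Prod.ext (Subtype.ext (hs1 _)) (Subtype.ext ?_)
    have e1 : p (ρ (s (b, f))).1 = p f.1 := by
      have h1 : p (ρ (s (b, f))).1 = b₀ := (ρ (s (b, f))).2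
      have h2 : p f.1 = b₀ := f.2
      rw [h1, h2]
    refine h.eq_of_two (b := (s (b, f)).1) e1 ?_ ?_
    · rw [h.symm]; exact hρ _
    · rw [h.symm]; exact hs2 (b, f)
  · refine Continuous.prodMk ?_ ?_
    · exact Continuous.subtype_mk (h.continuous.comp continuous_subtype_val) _
    · rw [continuous_iff_continuousAt]
      intro e
      refine ContinuousAt.congr (f := fun _ => ρ e) continuousAt_const ?_
      have hmem : (Subtype.val : p ⁻¹' V → E) ⁻¹' {a | d a e.1 < 1 / 4} ∈ 𝓝 e :=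
        continuous_subtype_val.continuousAt (h.ball_mem e.1 quarter_pos)
      filter_upwards [hmem] with a ha
      have ha' : d a.1 e.1 < 1 / 4 := ha
      refine Subtype.ext ?_
      have e1 : p (ρ e).1 = p (ρ a).1 := by
        have h1 : p (ρ e).1 = b₀ := (ρ e).2
        have h2 : p (ρ a).1 = b₀ := (ρ a).2
        rw [h1, h2]
      refine h.eq_of_three (b := e.1) (c := a.1) e1 ?_ ?_ ?_
      · rw [h.symm]; exact hρ _
      · rw [h.symm]; exact ha'
      · exact hρ a
  · rw [continuous_iff_continuousAt]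
    rintro ⟨b, f⟩
    unfold ContinuousAt
    rw [nhds_subtype_eq_comap, tendsto_comap_iff]
    have hf : 𝓝 f = pure f := by rw [nhds_discrete]
    have hF : 𝓝 ((b, f) : V × (p ⁻¹' {b₀})) = 𝓝 b ×ˢ pure f := by
      rw [nhds_prod_eq, hf]
    refine h.tendsto ?_ ?_
    · have : (fun a => p ((Subtype.val ∘ s) a)) = fun a : V × (p ⁻¹' {b₀}) => a.1.1 := by
        funext a
        exact hs1 a
      rw [this, hs1]
      exact (continuous_subtype_val.comp continuous_fst).continuousAt
    · intro r hr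
      obtain ⟨W, hW, hliftW⟩ := h.lift b.1 (hV2 b.2) (min r (1 / 4)) (lt_min hr quarter_pos)
      have hWb : (Subtype.val : V → X) ⁻¹' W ∈ 𝓝 b :=
        continuous_subtype_val.continuousAt hW
      rw [hF]
      have hev : ∀ᶠ a : V × (p ⁻¹' {b₀}) in 𝓝 b ×ˢ pure f, a.1.1 ∈ W ∧ a.2 = f := by
        refine (Filter.eventually_prod_iff).2 ⟨fun x => x.1 ∈ W, hWb, fun y => y = f, ?_, ?_⟩
        · exact Filter.eventually_pure.2 rfl
        · intro x hx y hy
          exact ⟨hx, hy⟩
      filter_upwards [hev] with a ha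
      obtain ⟨ha1, ha2⟩ := ha
      have hbW : b.1 ∈ W := mem_of_mem_nhds hW
      obtain ⟨e', h1, h2⟩ := hliftW (s (b, f)).1 (by rw [hs1]; exact hbW) a.1.1 ha1
      have e1 : e' = (s a).1 := by
        refine h.eq_of_three (b := (s (b, f)).1) (c := f.1) (by rw [h1, hs1]) ?_ ?_ ?_
        · rw [h.symm]; exact h2.trans_le (min_le_right _ _)
        · rw [h.symm]; exact hs2 (b, f)
        · have := hs2 a
          rw [ha2] at this
          exact this
      show d (s a).1 (s (b, f)).1 < r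
      rw [h.symm, ← e1]
      exact h2.trans_le (min_le_left _ _)

end Pool.Stab
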