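import Mathlib
import Pool.Agent.Work.MP_841263_st.Gen

/-!
# Gluing Harder-Narasimhan filtrations
-/

open CategoryTheory CategoryTheory.Limits CategoryTheory.Pretriangulated
open scoped ZeroObject

set_option backward.isDefEq.respectTransparency false
set_option backward.defeqAttrib.useBackward true
set_option linter.unusedSectionVars false

namespace Pool.Stab

universe v u

variable {C : Type u} [Category.{v} C] [Preadditive C] [HasZeroObject C] [HasShift C ℤ]
  [∀ n : ℤ, (shiftFunctor C n).Additive] [Pretriangulated C]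

lemma HN.single {P : ℝ → ObjectProperty C} {φ : ℝ} {X : C} (hX : P φ X) (h0 : ¬ IsZero X) :
    HN P X [φ] := by
  have hT : Triangle.mk (0 : (0 : C) ⟶ X) (𝟙 X) (0 : X ⟶ (0 : C)⟦(1 : ℤ)⟧) ∈ distTriang C :=
    contractible_distinguished₁ X
  exact HN.step (HN.zero (isZero_zero C)) (by simp) hX h0 _ _ _ hT

/-- Gluing. -/
lemma HN.glue [IsTriangulated C] {P : ℝ → ObjectProperty C} {X' X X'' : C} {l' l'' : List ℝ}
    {f : X' ⟶ X} {g : X ⟶ X''} {h : X'' ⟶ X'⟦(1 : ℤ)⟧} (hT : Triangle.mk f g h ∈ distTriang C)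
    (h' : HN P X' l') (h'' : HN P X'' l'') (hlt : ∀ ψ ∈ l'', ∀ φ ∈ l', ψ < φ) :
    HN P X (l'' ++ l') := by
  induction h'' generalizing X with
  | zero h0 =>
    have := iso_of_isZero₃ hT h0
    simpa using h'.iso (asIso f)
  | @step Y' Y A φ l hY' hφ hA hA0 a b c hT' ih =>
    obtain ⟨W, i₃, d₃, hW⟩ := distinguished_cocone_triangle₁ (g ≫ b)
    obtain ⟨m, n, r, hmn, -⟩ := exists_octa_cocone hT hT' hW
    have h1 := ih hmn (fun ψ hψ χ hχ => hlt ψ (by simp [hψ]) χ hχ)
    refine HN.step h1 ?_ hA hA0 _ _ _ hW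
    intro ψ hψ
    rcases List.mem_append.1 hψ with h2 | h2
    · exact hφ ψ h2
    · exact hlt φ (by simp) ψ h2

/-- Shifting. -/
lemma HN.shift_int {P : ℝ → ObjectProperty C}
    (hP : ∀ (φ : ℝ) (X : C) (n : ℤ), P φ X → P (φ + n) (X⟦n⟧)) {X : C} {l : List ℝ}
    (h : HN P X l) (n : ℤ) : HN P (X⟦n⟧) (l.map (· + (n : ℝ))) := by
  induction h with
  | zero hX => exact HN.zero ((isZero_shift_iff _ _).2 hX)
  | @step X Y A φ l hX hφ hA hA0 f g k hT ih =>
    have hT' := Triangle.shift_distinguished _ hT n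
    refine HN.step ih ?_ (hP φ A n hA) (fun h => hA0 ((isZero_shift_iff _ _).1 h))
      _ _ _ hT'
    intro ψ hψ
    obtain ⟨χ, hχ, rfl⟩ := List.mem_map.1 hψ
    have := hφ χ hχ
    linarith

/-- Additive functions on objects with a filtration. -/
lemma HN.nonneg {P : ℝ → ObjectProperty C} {X : C} {l : List ℝ} (h : HN P X l)
    (a : K0 C →+ ℝ) (ha : ∀ φ ∈ l, ∀ Y, P φ Y → ¬ IsZero Y → 0 ≤ a (cls Y)) :
    0 ≤ a (cls X) := by
  induction h with
  | zero h => simp [cls_of_isZero h]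
  | @step X Y A φ l hX hφ hA hA0 f g k hT ih =>
    rw [cls_mk hT, map_add]
    exact add_nonneg (ih (fun χ hχ => ha χ (by simp [hχ]))) (ha φ (by simp) A hA hA0)

lemma HN.pos {P : ℝ → ObjectProperty C} {X : C} {l : List ℝ} (h : HN P X l)
    (a : K0 C →+ ℝ) (ha : ∀ φ ∈ l, ∀ Y, P φ Y → ¬ IsZero Y → 0 < a (cls Y)) (hl : l ≠ []) :
    0 < a (cls X) := by
  cases h with
  | zero h => exact absurd rfl hl
  | @step X' _ A φ l hX hφ hA hA0 f g k hT =>
    rw [cls_mk hT, map_add]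
    exact add_pos_of_nonneg_of_pos
      (hX.nonneg a (fun χ hχ Y hY h0 => (ha χ (by simp [hχ]) Y hY h0).le))
      (ha φ (by simp) A hA hA0)

lemma HN.isZero {P : ℝ → ObjectProperty C} {X : C} (h : HN P X []) : IsZero X := by
  cases h with
  | zero h => exact h

end Pool.Stab
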