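import Mathlib
import Pool.Agent.Work.MP_841263_r.Roots

/-!
# Harder-Narasimhan filtrations in an abelian subcategory with a bounded slope function
-/

open CategoryTheory CategoryTheory.Limits CategoryTheory.Pretriangulated
open scoped ZeroObject

set_option backward.isDefEq.respectTransparency false
set_option backward.defeqAttrib.useBackward true
set_option linter.unusedSectionVars false

namespace Pool.Stab

universe v u

variable {C : Type u} [Category.{v} C] [Preadditive C] [HasZeroObject C] [HasShift C ℤ]
  [∀ n : ℤ, (shiftFunctor C n).Additive] [Pretriangulated C]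

/-- An abelian subcategory with a positive additive function. -/
structure PosCat (A : C → Prop) (im : K0 C →+ ℝ) : Prop extends AbSub A where
  pos : ∀ X, A X → ¬ IsZero X → 0 < im (cls X)

/-- Every object has only finitely many classes of subobjects on which `w` is bounded above. -/
def BddCat (A : C → Prop) (w : K0 C →+ ℝ) : Prop :=
  ∀ E, A E → ∀ c : ℝ, {x ∈ Sub A E | w x ≤ c}.Finite

section

variable {A : C → Prop} {im : K0 C →+ ℝ} [IsTriangulated C]

lemma PosCat.nonneg (h : PosCat A im) {X : C} (hX : A X) : 0 ≤ im (cls X) := by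
  by_cases h0 : IsZero X
  · rw [cls_of_isZero h0, map_zero]
  · exact (h.pos X hX h0).le

lemma SSt.quot_le {w : K0 C →+ ℝ} {E : C} (hE : SSt A im w E) {K I : C}
    {k : K ⟶ E} {p : E ⟶ I} (hs : SES A k p) : lin im w (cls E) (cls I) ≤ 0 := by
  have h1 := hE.2.2 _ hs.left_mem
  have h2 := hE.2.1
  rw [hs.cls_eq, map_add] at h2
  rw [← hs.cls_eq] at h2
  linarith

/-- There are no nonzero morphisms from larger to smaller phase. -/
lemma SSt.hom_zero' (h : PosCat A im) {w : K0 C →+ ℝ} {E F : C} (hE : SSt A im w E)
    (hF : SSt A im w F) (hlt : 0 < lin im w (cls E) (cls F)) (f : E ⟶ F) : f = 0 := by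
  obtain ⟨K, I, Q, k, p, i, q, h1, h2, hpi⟩ := h.kiq hE.1 hF.1 f
  have hI0 : IsZero I := by
    by_contra hI
    have hIpos := h.pos I h1.2.2.1 hI
    have hE0 : ¬ IsZero E := fun h0 => hI (isZero_of_SES_right h.toAbSub h1 (h0.eq_of_src _ _))
    have hF0 : ¬ IsZero F := fun h0 => hI (isZero_of_SES_left h.toAbSub h2 (h0.eq_of_tgt _ _))
    have e1 := hE.quot_le h1
    have e2 := hF.2.2 _ h2.left_mem
    have hEpos := h.pos E hE.1 hE0
    have hFpos := h.pos F hF.1 hF0
    have e3 : 0 < lin im w (cls E) (cls I) := lin_trans_pos' hFpos hEpos hIpos hlt e2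
    linarith
  rw [← hpi, hI0.eq_of_tgt p 0, zero_comp]

lemma SSt.iso (h : AbSub A) {w : K0 C →+ ℝ} {X Y : C} (hX : SSt A im w X) (e : X ≅ Y) :
    SSt A im w Y := by
  unfold SSt at hX ⊢
  rw [← cls_iso e]
  exact (King.ab h _).iso_mem e hX

/-- Sums of semistable objects of the same phase. -/
lemma SSt.biprod (h : PosCat A im) {w : K0 C →+ ℝ} {X Y : C} (hX : SSt A im w X)
    (hY : SSt A im w Y) (hX0 : ¬ IsZero X) (hY0 : ¬ IsZero Y)
    (he : lin im w (cls X) (cls Y) = 0) : SSt A im w (X ⊞ Y) := by
  have hXpos := h.pos X hX.1 hX0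
  have hYpos := h.pos Y hY.1 hY0
  unfold SSt at hX hY ⊢
  rw [cls_biprod]
  have hl : ∀ x, lin im w (cls X + cls Y) x =
      ((im (cls X) + im (cls Y)) / im (cls X)) * lin im w (cls X) x := by
    intro x
    rw [lin_apply] at he
    rw [lin_apply, lin_apply, map_add, map_add]
    field_simp
    have : im (cls X) * w (cls Y) = w (cls X) * im (cls Y) := by linarith
    linear_combination (-(im x)) * this
  have hl' : ∀ x, lin im w (cls X + cls Y) x =
      ((im (cls X) + im (cls Y)) / im (cls Y)) * lin im w (cls Y) x := by
    intro x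
    rw [lin_apply] at he
    rw [lin_apply, lin_apply, map_add, map_add]
    field_simp
    have : im (cls X) * w (cls Y) = w (cls X) * im (cls Y) := by linarith
    linear_combination (im x) * this
  have hr : 0 < (im (cls X) + im (cls Y)) / im (cls X) := by positivity
  have hr' : 0 < (im (cls X) + im (cls Y)) / im (cls Y) := by positivity
  have kX : King A (lin im w (cls X + cls Y)) X :=
    ⟨hX.1, by rw [hl, hX.2.1, mul_zero], fun x hx => by
      rw [hl]; exact mul_nonneg hr.le (hX.2.2 x hx)⟩
  have kY : King A (lin im w (cls X + cls Y)) Y :=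
    ⟨hY.1, by rw [hl', hY.2.1, mul_zero], fun x hx => by
      rw [hl']; exact mul_nonneg hr'.le (hY.2.2 x hx)⟩
  exact (King.ab h.toAbSub _).biprod_mem kX kY

/-- Existence of Harder-Narasimhan filtrations. -/
lemma PosCat.exists_HNo (h : PosCat A im) (w : K0 C →+ ℝ) (hb : BddCat A w) : ∀ E, A E →
    ∃ l, HNo A im w E l := by
  have key : ∀ (n : ℕ) (E : C), A E →
      ({x ∈ Sub A E | w x ≤ max (w (cls E)) 0}).ncard ≤ n → ∃ l, HNo A im w E l := by
    intro n
    induction n using Nat.strong_induction_on with
    | _ n ih =>
      intro E hE hn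
      by_cases h0 : IsZero E
      · exact ⟨[], HNo.zero h0⟩
      have hEpos := h.pos E hE h0
      have hSfin := hb E hE (max (w (cls E)) 0)
      have him : ∀ x ∈ Sub A E, 0 ≤ im x ∧ im x ≤ im (cls E) := by
        rintro x ⟨F, Q, f, g, hs, rfl⟩
        have h1 := h.nonneg hs.1
        have h2 := h.nonneg hs.2.2.1
        have h3 := hs.cls_eq
        rw [h3, map_add]
        exact ⟨h1, by linarith⟩
      set T : Set (K0 C) := {x ∈ Sub A E | 0 < im x ∧ w x * im (cls E) ≤ w (cls E) * im x}
        with hT
      have hTS : T ⊆ {x ∈ Sub A E | w x ≤ max (w (cls E)) 0} := by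
        rintro x ⟨hx, hx1, hx2⟩
        refine ⟨hx, ?_⟩
        obtain ⟨h1, h2⟩ := him x hx
        have h3 : w (cls E) * im x ≤ max (w (cls E)) 0 * im (cls E) := by
          calc w (cls E) * im x ≤ max (w (cls E)) 0 * im x :=
                mul_le_mul_of_nonneg_right (le_max_left _ _) h1
            _ ≤ max (w (cls E)) 0 * im (cls E) :=
                mul_le_mul_of_nonneg_left h2 (le_max_right _ _)
        exact le_of_mul_le_mul_right (hx2.trans h3) hEpos
      have hTfin : T.Finite := hSfin.subset hTS
      have hTne : T.Nonempty := ⟨cls E, self_mem_sub h.toAbSub hE, hEpos, le_rfl⟩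
      obtain ⟨x, hx, hmin⟩ := Set.exists_min_image T
        (fun x => toLex (w x / im x, - im x)) hTfin hTne
      obtain ⟨⟨F, Q, f, g, hs, rfl⟩, hFpos, hFle⟩ := hx
      have hF0 : ¬ IsZero F := by
        intro h3
        rw [cls_of_isZero h3, map_zero] at hFpos
        exact lt_irrefl _ hFpos
      -- classes outside of T have larger slope
      have hout : ∀ y ∈ Sub A E, 0 < im y → y ∉ T → 0 < lin im w (cls F) y := by
        intro y hy hypos hyT
        have h1 : w (cls E) * im y < w y * im (cls E) := by
          by_contra hcon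
          exact hyT ⟨hy, hypos, not_lt.1 hcon⟩
        have h2 : 0 ≤ lin im w (cls F) (cls E) := by
          rw [lin_apply]; linarith
        have h3 : 0 < lin im w (cls E) y := by
          rw [lin_apply]; linarith
        exact lin_trans_pos hEpos hFpos hypos h2 h3
      have hmin1 : ∀ y ∈ Sub A E, 0 < im y → 0 ≤ lin im w (cls F) y := by
        intro y hy hypos
        by_cases hyT : y ∈ T
        · have h3 := hmin y hyT
          have h4 : w (cls F) / im (cls F) ≤ w y / im y := by
            rw [Prod.Lex.le_iff] at h3
            rcases h3 with h3 | h3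
            · exact h3.le
            · exact h3.1.le
          rw [div_le_div_iff₀ hFpos hypos] at h4
          rw [lin_apply]
          linarith
        · exact (hout y hy hypos hyT).le
      have hmin2 : ∀ y ∈ Sub A E, im (cls F) < im y → 0 < lin im w (cls F) y := by
        intro y hy hypos
        have hy0 : 0 < im y := hFpos.trans hypos
        by_cases hyT : y ∈ T
        · have h3 := hmin y hyT
          have h4 : w (cls F) / im (cls F) < w y / im y := by
            rw [Prod.Lex.le_iff] at h3
            rcases h3 with h3 | h3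
            · exact h3
            · exfalso
              have : - im (cls F) ≤ - im y := h3.2
              linarith
          rw [div_lt_div_iff₀ hFpos hy0] at h4
          rw [lin_apply]
          linarith
        · exact hout y hy hy0 hyT
      have hFs : SSt A im w F := by
        refine ⟨hs.1, lin_self _ _ _, ?_⟩
        intro y hy
        by_cases hy0 : 0 < im y
        · exact hmin1 y (sub_mono h.toAbSub hs hy) hy0
        · obtain ⟨F', Q', f', g', hs', rfl⟩ := hy
          have : IsZero F' := by
            by_contra hF'
            exact hy0 (h.pos _ hs'.1 hF')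
          rw [cls_of_isZero this, map_zero]
      have hwF : w (cls F) ≤ max (w (cls E)) 0 :=
        (hTS (show cls F ∈ T from ⟨hs.left_mem, hFpos, hFle⟩)).2
      -- the induction hypothesis for the quotient
      have hcard : ({x ∈ Sub A Q | w x ≤ max (w (cls Q)) 0}).ncard <
          ({x ∈ Sub A E | w x ≤ max (w (cls E)) 0}).ncard := by
        have hsub : (fun x => cls F + x) '' {x ∈ Sub A Q | w x ≤ max (w (cls Q)) 0} ⊂
            {x ∈ Sub A E | w x ≤ max (w (cls E)) 0} := by
          refine ⟨?_, fun hcon => ?_⟩
          · rintro _ ⟨x, ⟨hx1, hx2⟩, rfl⟩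
            refine ⟨sub_quot h.toAbSub hs hx1, ?_⟩
            have h1 : w (cls E) = w (cls F) + w (cls Q) := by rw [hs.cls_eq, map_add]
            show w (cls F + x) ≤ _
            rw [map_add]
            rcases le_total (w (cls Q)) 0 with h2 | h2
            · rw [max_eq_right h2] at hx2
              linarith
            · rw [max_eq_left h2] at hx2
              have := le_max_left (w (cls E)) 0
              linarith
          · obtain ⟨x, ⟨hx1, hx2⟩, hx3⟩ := hcon (show (0 : K0 C) ∈ _ from
              ⟨zero_mem_sub h.toAbSub hE, by rw [map_zero]; exact le_max_right _ _⟩)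
            obtain ⟨F', Q', f', g', hs', rfl⟩ := hx1
            have h1 := h.nonneg hs'.1
            have h2 : im (cls F + cls F') = 0 := by
              have : cls F + cls F' = 0 := hx3
              rw [this, map_zero]
            rw [map_add] at h2
            linarith
        have h1 := Set.ncard_lt_ncard hsub hSfin
        rwa [Set.ncard_image_of_injective _ (add_right_injective (cls F))] at h1
      obtain ⟨l, hl⟩ := ih _ (lt_of_lt_of_le hcard hn) Q hs.2.2.1 le_rfl
      have hall := hl.all
      refine ⟨F :: l, HNo.step hs hFs hF0 hl ?_⟩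
      cases hl with
      | zero _ => simp
      | @step H1 _ Q' f' g' l' hs' hH1 hH10 hQ' hl' =>
        have hH1pos := h.pos _ hH1.1 hH10
        have h5 : 0 < lin im w (cls F) (cls H1) := by
          have h6 := hmin2 _ (sub_quot h.toAbSub hs hs'.left_mem) (by rw [map_add]; linarith)
          rw [map_add, lin_self, zero_add] at h6
          exact h6
        intro H hH
        rcases List.mem_cons.1 hH with rfl | hH'
        · exact h5
        · have hHpos := h.pos _ (hall H hH).1.1 (hall H hH).2
          exact lin_trans_pos' hH1pos hFpos hHpos h5 (hl' H hH').le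
  intro E hE
  exact key _ E hE le_rfl

end

end Pool.Stab
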