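import Mathlib
import Pool.Agent.Work.MP_841263_c.Pos
import Pool.Agent.Work.MP_841263_c.Glue

/-!
# The slicing given by a heart and a slope function
-/

open CategoryTheory CategoryTheory.Limits CategoryTheory.Pretriangulated
open scoped ZeroObject

set_option backward.isDefEq.respectTransparency false
set_option backward.defeqAttrib.useBackward true
set_option linter.unusedSectionVars false

namespace Pool.Stab

universe v u

variable {C : Type u} [Category.{v} C] [Preadditive C] [HasZeroObject C] [HasShift C ℤ]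
  [∀ n : ℤ, (shiftFunctor C n).Additive] [Pretriangulated C]

/-- The phase of a class with positive imaginary part. -/
noncomputable def ph (im w : K0 C →+ ℝ) (t : ℝ) (x : K0 C) : ℝ :=
  t + Complex.arg ⟨w x, im x⟩ / Real.pi

lemma arg_mem {z : ℂ} (hz : 0 < z.im) : 0 < z.arg ∧ z.arg < Real.pi := by
  refine ⟨?_, ?_⟩
  · rcases lt_or_eq_of_le (Complex.arg_nonneg_iff.2 hz.le) with h | h
    · exact h
    · exfalso
      have := Complex.arg_eq_zero_iff.1 h.symm
      rw [this.2] at hz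
      exact lt_irrefl _ hz
  · exact Complex.arg_lt_pi_iff.2 (Or.inr hz.ne')

lemma ph_mem {im w : K0 C →+ ℝ} {t : ℝ} {x : K0 C} (hx : 0 < im x) :
    t < ph im w t x ∧ ph im w t x < t + 1 := by
  obtain ⟨h1, h2⟩ := arg_mem (z := ⟨w x, im x⟩) hx
  have hpi := Real.pi_pos
  have h3 : 0 < Complex.arg ⟨w x, im x⟩ / Real.pi := by positivity
  have h4 : Complex.arg ⟨w x, im x⟩ / Real.pi < 1 := by
    rw [div_lt_one hpi]; exact h2
  unfold ph
  exact ⟨by linarith, by linarith⟩

/-- Polar coordinates with respect to the phase. -/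
lemma ph_polar {im w : K0 C →+ ℝ} (t : ℝ) {x : K0 C} (hx : 0 < im x) :
    ∃ r : ℝ, 0 < r ∧ w x = r * Real.cos (Real.pi * (ph im w t x - t)) ∧
      im x = r * Real.sin (Real.pi * (ph im w t x - t)) := by
  set z : ℂ := ⟨w x, im x⟩ with hz
  have hz0 : z ≠ 0 := by
    intro h
    have : z.im = 0 := by rw [h]; rfl
    rw [hz] at this
    exact hx.ne' this
  have harg : Real.pi * (ph im w t x - t) = z.arg := by
    unfold ph
    field_simp
    ring
  refine ⟨‖z‖, norm_pos_iff.2 hz0, ?_, ?_⟩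
  · rw [harg, Complex.norm_mul_cos_arg]
  · rw [harg, Complex.norm_mul_sin_arg]

lemma lin_polar' {im w : K0 C →+ ℝ} {x y : K0 C} {r s a b : ℝ}
    (h1 : w x = r * Real.cos a) (h2 : im x = r * Real.sin a) (h3 : w y = s * Real.cos b)
    (h4 : im y = s * Real.sin b) : lin im w x y = r * s * Real.sin (a - b) := by
  rw [lin_apply, h1, h2, h3, h4, Real.sin_sub]
  ring

lemma ph_lt_iff {im w : K0 C →+ ℝ} {t : ℝ} {x y : K0 C} (hx : 0 < im x) (hy : 0 < im y) :
    ph im w t y < ph im w t x ↔ 0 < lin im w x y := by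
  obtain ⟨r, hr, h1, h2⟩ := ph_polar (w := w) t hx
  obtain ⟨s, hs, h3, h4⟩ := ph_polar (w := w) t hy
  obtain ⟨hx1, hx2⟩ := ph_mem (w := w) (t := t) hx
  obtain ⟨hy1, hy2⟩ := ph_mem (w := w) (t := t) hy
  have hpi := Real.pi_pos
  rw [lin_polar' h1 h2 h3 h4]
  have he : Real.pi * (ph im w t x - t) - Real.pi * (ph im w t y - t) =
      Real.pi * (ph im w t x - ph im w t y) := by ring
  rw [he]
  constructor
  · intro h
    have : 0 < Real.sin (Real.pi * (ph im w t x - ph im w t y)) := by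
      apply Real.sin_pos_of_pos_of_lt_pi
      · exact mul_pos hpi (by linarith)
      · nlinarith
    positivity
  · intro h
    by_contra hcon
    push Not at hcon
    have : Real.sin (Real.pi * (ph im w t x - ph im w t y)) ≤ 0 := by
      apply Real.sin_nonpos_of_nonpos_of_neg_pi_le
      · nlinarith
      · nlinarith
    have h5 : r * s * Real.sin (Real.pi * (ph im w t x - ph im w t y)) ≤ 0 :=
      mul_nonpos_of_nonneg_of_nonpos (by positivity) this
    linarith

lemma ph_eq_iff {im w : K0 C →+ ℝ} {t : ℝ} {x y : K0 C} (hx : 0 < im x) (hy : 0 < im y) :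
    ph im w t y = ph im w t x ↔ lin im w x y = 0 := by
  have h1 := ph_lt_iff (w := w) (t := t) hx hy
  have h2 := ph_lt_iff (w := w) (t := t) hy hx
  rw [lin_anti im w y x] at h2
  constructor
  · intro h
    have h3 : ¬ 0 < lin im w x y := by
      rw [← h1]; exact not_lt.2 h.ge
    have h4 : ¬ 0 < - lin im w x y := by
      rw [← h2]; exact not_lt.2 h.le
    linarith [not_lt.1 h3, not_lt.1 h4]
  · intro h
    have h3 : ¬ ph im w t y < ph im w t x := by
      rw [h1, h]; exact lt_irrefl _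
    have h4 : ¬ ph im w t x < ph im w t y := by
      rw [h2, h, neg_zero]; exact lt_irrefl _
    exact le_antisymm (not_lt.1 h4) (not_lt.1 h3)

/-- Semistable objects of phase `φ` for the new slicing. -/
def newP (A : C → Prop) (im w : K0 C →+ ℝ) (t : ℝ) (φ : ℝ) : ObjectProperty C := fun X =>
  IsZero X ∨ ∃ (n : ℤ) (Y : C), SSt A im w Y ∧ ¬ IsZero Y ∧ φ = ph im w t (cls Y) + n ∧
    Nonempty (X ≅ Y⟦n⟧)

section

variable {A : C → Prop} {im w : K0 C →+ ℝ} {t : ℝ}

lemma newP.iso {φ : ℝ} {X Y : C} (e : X ≅ Y) (h : newP A im w t φ X) : newP A im w t φ Y := by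
  rcases h with h | ⟨n, Z, h1, h2, h3, ⟨e'⟩⟩
  · exact Or.inl (h.of_iso e.symm)
  · exact Or.inr ⟨n, Z, h1, h2, h3, ⟨e.symm ≪≫ e'⟩⟩

lemma newP.shift (φ : ℝ) (X : C) (m : ℤ) (h : newP A im w t φ X) :
    newP A im w t (φ + m) (X⟦m⟧) := by
  rcases h with h | ⟨n, Z, h1, h2, h3, ⟨e'⟩⟩
  · exact Or.inl ((isZero_shift_iff _ _).2 h)
  · refine Or.inr ⟨n + m, Z, h1, h2, ?_, ⟨?_⟩⟩
    · rw [h3]; push_cast; ring
    · exact (shiftFunctor C m).mapIso e' ≪≫ ((shiftFunctorAdd C n m).app Z).symm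

lemma newP.of_sst {Y : C} (h : SSt A im w Y) (h0 : ¬ IsZero Y) :
    newP A im w t (ph im w t (cls Y)) Y :=
  Or.inr ⟨0, Y, h, h0, by simp, ⟨((shiftFunctorZero C ℤ).app Y).symm⟩⟩

lemma newP.of_shift {φ : ℝ} {X : C} {m : ℤ} (h : newP A im w t φ (X⟦m⟧)) :
    newP A im w t (φ - m) X := by
  have h1 := newP.shift _ _ (-m) h
  have e : (X⟦m⟧)⟦(-m)⟧ ≅ X := (shiftFunctorCompIsoId C m (-m) (by simp)).app X
  have h2 := newP.iso e h1
  push_cast at h2
  rwa [← sub_eq_add_neg] at h2

variable [IsTriangulated C]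

/-- The HN filtration of an object of the heart. -/
lemma HNo.toHN (h : PosCat A im) {E : C} {l : List C} (hE : HNo A im w E l) :
    ∃ L : List ℝ, HN (newP A im w t) E L ∧ ∀ φ ∈ L, ∃ H ∈ l, φ = ph im w t (cls H) := by
  induction hE with
  | zero h0 => exact ⟨[], HN.zero h0, by simp⟩
  | @step F E Q f g l hs hF hF0 hQ hl ih =>
    obtain ⟨L, hL, hLl⟩ := ih
    obtain ⟨-, -, -, d, hT⟩ := hs
    refine ⟨L ++ [ph im w t (cls F)], HN.glue hT (HN.single (newP.of_sst hF hF0) hF0) hL ?_, ?_⟩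
    · intro ψ hψ φ hφ
      obtain ⟨H, hH, rfl⟩ := hLl ψ hψ
      have hφ' : φ = ph im w t (cls F) := by simpa using hφ
      rw [hφ', ph_lt_iff (h.pos F hF.1 hF0) (h.pos H (hQ.all H hH).1.1 (hQ.all H hH).2)]
      exact hl H hH
    · intro φ hφ
      rcases List.mem_append.1 hφ with h1 | h1
      · obtain ⟨H, hH, h2⟩ := hLl φ h1
        exact ⟨H, by simp [hH], h2⟩
      · have : φ = ph im w t (cls F) := by simpa using h1
        exact ⟨F, by simp, this⟩

lemma newP.hom_zero (h : PosCat A im) {φ ψ : ℝ} (hlt : ψ < φ) {X Y : C}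
    (hX : newP A im w t φ X) (hY : newP A im w t ψ Y) (f : X ⟶ Y) : f = 0 := by
  rcases hX with hX | ⟨n, X', h1, h2, h3, ⟨e⟩⟩
  · exact hX.eq_of_src _ _
  rcases hY with hY | ⟨m, Y', h1', h2', h3', ⟨e'⟩⟩
  · exact hY.eq_of_tgt _ _
  have hx := h.pos X' h1.1 h2
  have hy := h.pos Y' h1'.1 h2'
  obtain ⟨hx1, hx2⟩ := ph_mem (w := w) (t := t) hx
  obtain ⟨hy1, hy2⟩ := ph_mem (w := w) (t := t) hy
  have key : ∀ g : X'⟦n⟧ ⟶ Y'⟦m⟧, g = 0 := by
    have hmn : m ≤ n := by
      have : (m : ℝ) < n + 1 := by linarith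
      have : m < n + 1 := by exact_mod_cast this
      omega
    rcases hmn.lt_or_eq with h5 | h5
    · exact hom_shift_zero (c := m - n) (by ring) (h.hom_neg h1.1 h1'.1 (by omega))
    · subst h5
      refine hom_shift_zero (c := 0) (by ring) ?_
      intro g
      have h6 : g ≫ ((shiftFunctorZero C ℤ).app Y').hom = 0 :=
        h1.hom_zero' h h1' ((ph_lt_iff hx hy).1 (by linarith)) _
      rw [← cancel_mono ((shiftFunctorZero C ℤ).app Y').hom, h6, zero_comp]
  have := key (e.inv ≫ f ≫ e'.hom)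
  calc f = e.hom ≫ (e.inv ≫ f ≫ e'.hom) ≫ e'.inv := by simp
    _ = 0 := by rw [this]; simp

lemma newP.biprod (h : PosCat A im) {φ : ℝ} {X Y : C}
    (hX : newP A im w t φ X) (hY : newP A im w t φ Y) : newP A im w t φ (X ⊞ Y) := by
  by_cases hX0 : IsZero X
  · have hT := binaryBiproductTriangle_distinguished X Y
    have := iso_of_isZero₁ hT hX0
    exact newP.iso (asIso (biprod.snd : X ⊞ Y ⟶ Y)).symm hY
  by_cases hY0 : IsZero Y
  · have hT := binaryBiproductTriangle_distinguished X Y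
    have := iso_of_isZero₃ hT hY0
    exact newP.iso (asIso (biprod.inl : X ⟶ X ⊞ Y)) hX
  obtain ⟨n, X', h1, h2, h3, ⟨e⟩⟩ := hX.resolve_left hX0
  obtain ⟨m, Y', h1', h2', h3', ⟨e'⟩⟩ := hY.resolve_left hY0
  have hx := h.pos X' h1.1 h2
  have hy := h.pos Y' h1'.1 h2'
  obtain ⟨hx1, hx2⟩ := ph_mem (w := w) (t := t) hx
  obtain ⟨hy1, hy2⟩ := ph_mem (w := w) (t := t) hy
  have hmn : m = n := by
    have e1 : (m : ℝ) < n + 1 := by linarith
    have e2 : (n : ℝ) < m + 1 := by linarith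
    have e3 : m < n + 1 := by exact_mod_cast e1
    have e4 : n < m + 1 := by exact_mod_cast e2
    omega
  subst hmn
  have hphe : ph im w t (cls Y') = ph im w t (cls X') := by linarith
  have hlin := (ph_eq_iff hx hy).1 hphe
  have hsum := h1.biprod h h1' h2 h2' hlin
  have hsum0 : ¬ IsZero (X' ⊞ Y') := not_isZero_biprod h2
  have hpos := h.pos _ hsum.1 hsum0
  refine Or.inr ⟨m, X' ⊞ Y', hsum, hsum0, ?_, ⟨?_⟩⟩
  · rw [h3]
    congr 1
    rw [ph_eq_iff hpos hx, cls_biprod, lin_add_left, lin_self, lin_anti, hlin]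
    ring
  · have := Limits.preservesBinaryBiproducts_of_preservesBiproducts (shiftFunctor C m)
    exact (biprod.mapIso e e') ≪≫ ((shiftFunctor C m).mapBiprod X' Y').symm

end

section

variable [IsTriangulated C] {S : Slicing C} {im w : K0 C →+ ℝ} {t : ℝ}

/-- Every object has a filtration. -/
lemma exists_HN_newP (h : PosCat (S.Heart t) im) (hb : BddCat (S.Heart t) w) :
    ∀ (n : ℕ) (k : ℤ) (X : C) (l : List ℝ), HN S.P X l →
      (∀ φ ∈ l, φ ∈ Set.Ioc (t + k) (t + k + n)) →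
      ∃ L : List ℝ, HN (newP (S.Heart t) im w t) X L ∧
        ∀ φ ∈ L, φ ∈ Set.Ioo (t + k) (t + k + n) := by
  classical
  intro n
  induction n with
  | zero =>
    intro k X l hl hI
    have : l = [] := by
      rw [List.eq_nil_iff_forall_not_mem]
      intro φ hφ
      obtain ⟨h1, h2⟩ := hI φ hφ
      simp only [CharP.cast_eq_zero, add_zero] at h2
      linarith
    subst this
    exact ⟨[], HN.zero hl.isZero, by simp⟩
  | succ n ih =>
    intro k X l hl hI
    obtain ⟨X', X'', f, g, d, hT, h1, h2⟩ := hl.trunc (Set.Ioi (t + k + 1)) (isUpperSet_Ioi _)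
    obtain ⟨L', hL', hI'⟩ := ih (k + 1) X' _ h1 (by
      intro φ hφ
      obtain ⟨h3, h4⟩ := List.mem_filter.1 hφ
      have h5 : t + k + 1 < φ := by simpa using h4
      have h6 := (hI φ h3).2
      push_cast at h6 ⊢
      exact ⟨by linarith, by linarith⟩)
    have hX'' : S.Heart t (X''⟦(-k)⟧) := by
      have h7 : S.In (Set.Ioc (t + k) (t + k + 1)) X'' := by
        refine ⟨_, h2, ?_⟩
        intro φ hφ
        obtain ⟨h3, h4⟩ := List.mem_filter.1 hφ
        have h5 : φ ≤ t + k + 1 := by simpa using h4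
        exact ⟨(hI φ h3).1, h5⟩
      refine (h7.shift (-k)).mono ?_
      rintro _ ⟨x, ⟨hx1, hx2⟩, rfl⟩
      show _ ∧ _
      push_cast
      exact ⟨by linarith, by linarith⟩
    obtain ⟨lo, hlo⟩ := h.exists_HNo w hb _ hX''
    obtain ⟨L, hL, hLl⟩ := hlo.toHN (t := t) h
    have hL2 := (hL.shift_int newP.shift k).iso
      ((shiftFunctorCompIsoId C (-k) k (by simp)).app X'')
    have hI'' : ∀ ψ ∈ L.map (· + (k : ℝ)), t + k < ψ ∧ ψ < t + k + 1 := by
      intro ψ hψ
      obtain ⟨χ, hχ, rfl⟩ := List.mem_map.1 hψ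
      obtain ⟨H, hH, rfl⟩ := hLl χ hχ
      have h8 := h.pos H (hlo.all H hH).1.1 (hlo.all H hH).2
      obtain ⟨h9, h10⟩ := ph_mem (w := w) (t := t) h8
      exact ⟨by linarith, by linarith⟩
    refine ⟨L.map (· + (k : ℝ)) ++ L', HN.glue hT hL' hL2 ?_, ?_⟩
    · intro ψ hψ φ hφ
      have h3 := (hI'' ψ hψ).2
      have h4 := (hI' φ hφ).1
      push_cast at h4
      linarith
    · intro φ hφ
      rcases List.mem_append.1 hφ with h3 | h3
      · obtain ⟨h4, h5⟩ := hI'' φ h3
        push_cast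
        have : (0 : ℝ) ≤ n := by positivity
        exact ⟨h4, by linarith⟩
      · obtain ⟨h4, h5⟩ := hI' φ h3
        push_cast at h4 h5 ⊢
        exact ⟨by linarith, by linarith⟩

variable (S) in
/-- The slicing given by the heart `P(t, t+1]` and the slope function `w / im`. -/
noncomputable def newSl (t : ℝ) (im w : K0 C →+ ℝ) (h : PosCat (S.Heart t) im)
    (hb : BddCat (S.Heart t) w) : Slicing C where
  P := newP (S.Heart t) im w t
  iso_mem := fun _ _ _ e h => newP.iso e h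
  zero_mem := fun _ => Or.inl (isZero_zero C)
  biprod_mem := fun _ _ _ hX hY => newP.biprod h hX hY
  shift_mem := by
    intro φ X
    refine ⟨fun hX => by simpa using newP.shift _ _ 1 hX, fun hX => ?_⟩
    have := newP.of_shift (m := 1) hX
    simpa using this
  hom_zero := fun hlt _ _ hX hY f => newP.hom_zero h hlt hX hY f
  exists_HN := by
    intro X
    obtain ⟨l, hl⟩ := S.exists_HN X
    obtain ⟨a, b, hab⟩ : ∃ a b : ℝ, ∀ φ ∈ l, a ≤ φ ∧ φ ≤ b := by
      clear hl
      induction l with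
      | nil => exact ⟨0, 0, by simp⟩
      | cons x l ih =>
        obtain ⟨a, b, hab⟩ := ih
        refine ⟨min a x, max b x, ?_⟩
        intro φ hφ
        rcases List.mem_cons.1 hφ with rfl | h1
        · exact ⟨min_le_right _ _, le_max_right _ _⟩
        · exact ⟨(min_le_left _ _).trans (hab φ h1).1, (hab φ h1).2.trans (le_max_left _ _)⟩
    obtain ⟨k, hk⟩ : ∃ k : ℤ, t + k < a := by
      obtain ⟨k, hk⟩ := exists_int_lt (a - t)
      exact ⟨k, by linarith⟩
    obtain ⟨n, hn⟩ : ∃ n : ℕ, b ≤ t + k + n := by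
      obtain ⟨n, hn⟩ := exists_nat_ge (b - t - k)
      exact ⟨n, by linarith⟩
    obtain ⟨L, hL, -⟩ := exists_HN_newP h hb n k X l hl (by
      intro φ hφ
      obtain ⟨h1, h2⟩ := hab φ hφ
      exact ⟨by linarith, by linarith⟩)
    exact ⟨L, hL⟩

end

end Pool.Stab
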