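import Mathlib
import Pool.Agent.Work.MP_841263_c.NewSl
import Pool.Agent.Work.MP_841263_r.Bound

/-!
# Estimates for a deformation of the central charge which fixes the heart `P(t, t+1]`
-/

open CategoryTheory CategoryTheory.Limits CategoryTheory.Pretriangulated
open scoped ZeroObject TensorProduct

set_option backward.isDefEq.respectTransparency false
set_option backward.defeqAttrib.useBackward true
set_option linter.unusedSectionVars false

namespace Pool.Stab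

universe v u

variable {C : Type u} [Category.{v} C] [Preadditive C] [HasZeroObject C] [HasShift C ℤ]
  [∀ n : ℤ, (shiftFunctor C n).Additive] [Pretriangulated C]

/-- `u` is small with respect to the charge on semistable objects. -/
def StabCond.Small (σ : StabCond C) (ε : ℝ) (u : K0 C →+ ℝ) : Prop :=
  ∀ (φ : ℝ) (X : C), σ.sl.P φ X → |u (cls X)| ≤ ε * ‖σ.Z (cls X)‖

lemma StabCond.config_mass (σ : StabCond C) {X : C} {l : List ℝ} (hX : HN σ.sl.P X l)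
    (g : K0 C →+ ℝ) (hg : ∀ φ ∈ l, ∀ Y, σ.sl.P φ Y → ¬ IsZero Y →
      ‖σ.Z (cls Y)‖ ≤ g (cls Y)) :
    ∃ s : Multiset (K0 C), (∀ x ∈ s, x ∈ σ.SS) ∧ s.sum = cls X ∧ σ.mass s ≤ g (cls X) := by
  induction hX with
  | zero h => exact ⟨0, by simp, by simp [cls_of_isZero h], by
      simp [cls_of_isZero h, StabCond.mass_zero]⟩
  | @step X Y A φ l hX hφ hA hA0 f g k hT ih =>
    obtain ⟨s, hs, hsum, hm⟩ := ih (fun χ hχ => hg χ (by simp [hχ]))
    refine ⟨cls A ::ₘ s, ?_, ?_, ?_⟩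
    · intro x hx
      rcases Multiset.mem_cons.1 hx with rfl | h
      · exact ⟨φ, A, hA, hA0, rfl⟩
      · exact hs x h
    · rw [Multiset.sum_cons, hsum, cls_mk hT, add_comm]
    · rw [StabCond.mass_cons, cls_mk hT, map_add]
      have := hg φ (by simp) A hA hA0
      linarith

lemma StabCond.Small.bound {σ : StabCond C} {ε : ℝ} {u : K0 C →+ ℝ} (hu : σ.Small ε u)
    (hε : 0 ≤ ε) {X : C} {l : List ℝ} (hX : HN σ.sl.P X l)
    (g : K0 C →+ ℝ) (hg : ∀ φ ∈ l, ∀ Y, σ.sl.P φ Y → ¬ IsZero Y →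
      ‖σ.Z (cls Y)‖ ≤ g (cls Y)) : |u (cls X)| ≤ ε * g (cls X) := by
  induction hX with
  | zero h => simp [cls_of_isZero h]
  | @step X Y A φ l hX hφ hA hA0 f g' k hT ih =>
    have h1 := ih (fun χ hχ => hg χ (by simp [hχ]))
    have h2 := hu φ A hA
    have h3 := mul_le_mul_of_nonneg_left (hg φ (by simp) A hA hA0) hε
    rw [cls_mk hT]
    simp only [map_add]
    calc |u (cls X) + u (cls A)| ≤ |u (cls X)| + |u (cls A)| := abs_add_le _ _
      _ ≤ ε * (g (cls X) + g (cls A)) := by linarith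

section

variable [IsTriangulated C]

/-- Subobjects of objects with bounded phases. -/
lemma StabCond.sub_In (σ : StabCond C) {t : ℝ} {U : Set ℝ} (hU : IsUpperSet U) {F E Q : C}
    {f : F ⟶ E} {g : E ⟶ Q}
    (hs : SES (σ.sl.Heart t) f g) (hE : σ.sl.In Uᶜ E) : σ.sl.In Uᶜ F := by
  classical
  have hab := σ.sl.heart_ab t
  obtain ⟨l, hl, hI⟩ := hs.1
  obtain ⟨H₁, H₂, a, b, d, hT, hH₁, hH₂⟩ := hl.trunc U hU
  have h1 : σ.sl.Heart t H₁ := ⟨_, hH₁, fun φ hφ => hI φ (List.mem_filter.1 hφ).1⟩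
  have h2 : σ.sl.Heart t H₂ := ⟨_, hH₂, fun φ hφ => hI φ (List.mem_filter.1 hφ).1⟩
  have h3 : σ.sl.In U H₁ := ⟨_, hH₁, fun φ hφ => by simpa using (List.mem_filter.1 hφ).2⟩
  have h4 : σ.sl.In Uᶜ H₂ := ⟨_, hH₂, fun φ hφ => by simpa using (List.mem_filter.1 hφ).2⟩
  have hs' : SES (σ.sl.Heart t) a b := ⟨h1, hs.1, h2, d, hT⟩
  have h5 : a ≫ f = 0 := h3.hom_zero hE (IsUpperSet.sep hU) _
  have h6 : a = 0 := hs.mono hab h1 a h5
  have h7 := isZero_of_SES_left hab hs' h6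
  have := iso_of_isZero₁ hT h7
  exact h4.iso (asIso b).symm

/-- Quotients of objects with bounded phases. -/
lemma StabCond.quot_In (σ : StabCond C) {t : ℝ} {U : Set ℝ} (hU : IsUpperSet U) {F E Q : C}
    {f : F ⟶ E} {g : E ⟶ Q}
    (hs : SES (σ.sl.Heart t) f g) (hE : σ.sl.In U E) : σ.sl.In U Q := by
  classical
  have hab := σ.sl.heart_ab t
  obtain ⟨l, hl, hI⟩ := hs.2.2.1
  obtain ⟨H₁, H₂, a, b, d, hT, hH₁, hH₂⟩ := hl.trunc U hU
  have h1 : σ.sl.Heart t H₁ := ⟨_, hH₁, fun φ hφ => hI φ (List.mem_filter.1 hφ).1⟩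
  have h2 : σ.sl.Heart t H₂ := ⟨_, hH₂, fun φ hφ => hI φ (List.mem_filter.1 hφ).1⟩
  have h3 : σ.sl.In U H₁ := ⟨_, hH₁, fun φ hφ => by simpa using (List.mem_filter.1 hφ).2⟩
  have h4 : σ.sl.In Uᶜ H₂ := ⟨_, hH₂, fun φ hφ => by simpa using (List.mem_filter.1 hφ).2⟩
  have hs' : SES (σ.sl.Heart t) a b := ⟨h1, hs.2.2.1, h2, d, hT⟩
  have h5 : g ≫ b = 0 := hE.hom_zero h4 (IsUpperSet.sep hU) _
  have h6 : b = 0 := hs.epi hab h2 b h5
  have h7 := isZero_of_SES_right hab hs' h6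
  have := iso_of_isZero₃ hT h7
  exact h3.iso (asIso a)

lemma HN.filter_phases {S : Slicing C} {X : C} {l : List ℝ} (hX : HN S.P X l) {U : Set ℝ}
    (h : S.In U X) (hU : IsUpperSet U ∨ IsUpperSet Uᶜ) : ∀ φ ∈ l, φ ∈ U := by
  rcases hU with hU | hU
  · exact hX.mem_upper hU h
  · have h' : S.In (Uᶜ)ᶜ X := by rwa [compl_compl]
    intro φ hφ
    have := hX.mem_lower hU h' φ hφ
    simpa using this

/-- The real part is nonnegative on `P(t, t + 1/2]`. -/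
lemma StabCond.re_nonneg_low (σ : StabCond C) {t φ : ℝ} {Y : C} (hY : σ.sl.P φ Y)
    (h1 : t < φ) (h2 : φ ≤ t + 1 / 2) : 0 ≤ σ.re t (cls Y) ∧
      ‖σ.Z (cls Y)‖ ≤ σ.re t (cls Y) + σ.im t (cls Y) := by
  by_cases h0 : IsZero Y
  · simp [cls_of_isZero h0]
  obtain ⟨hpos, hre, him⟩ := σ.polar t hY h0
  have hpi := Real.pi_pos
  have hc : 0 ≤ Real.cos (Real.pi * (φ - t)) :=
    Real.cos_nonneg_of_mem_Icc ⟨by nlinarith, by nlinarith⟩
  have hs : 0 ≤ Real.sin (Real.pi * (φ - t)) :=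
    Real.sin_nonneg_of_nonneg_of_le_pi (by nlinarith) (by nlinarith)
  have hsc := Real.sin_sq_add_cos_sq (Real.pi * (φ - t))
  have h3 : 1 ≤ Real.cos (Real.pi * (φ - t)) + Real.sin (Real.pi * (φ - t)) := by
    nlinarith [Real.cos_le_one (Real.pi * (φ - t)), Real.sin_le_one (Real.pi * (φ - t))]
  rw [hre, him]
  exact ⟨by positivity, by nlinarith⟩

/-- The real part is nonpositive on `P(t + 1/2, t + 1]`. -/
lemma StabCond.re_nonpos_high (σ : StabCond C) {t φ : ℝ} {Y : C} (hY : σ.sl.P φ Y)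
    (h1 : t + 1 / 2 < φ) (h2 : φ ≤ t + 1) : σ.re t (cls Y) ≤ 0 ∧
      ‖σ.Z (cls Y)‖ ≤ - σ.re t (cls Y) + σ.im t (cls Y) := by
  by_cases h0 : IsZero Y
  · simp [cls_of_isZero h0]
  obtain ⟨hpos, hre, him⟩ := σ.polar t hY h0
  have hpi := Real.pi_pos
  have hc : Real.cos (Real.pi * (φ - t)) ≤ 0 :=
    Real.cos_nonpos_of_pi_div_two_le_of_le (by nlinarith) (by nlinarith)
  have hs : 0 ≤ Real.sin (Real.pi * (φ - t)) :=
    Real.sin_nonneg_of_nonneg_of_le_pi (by nlinarith) (by nlinarith)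
  have hsc := Real.sin_sq_add_cos_sq (Real.pi * (φ - t))
  have h3 : 1 ≤ - Real.cos (Real.pi * (φ - t)) + Real.sin (Real.pi * (φ - t)) := by
    nlinarith [Real.neg_one_le_cos (Real.pi * (φ - t)), Real.sin_le_one (Real.pi * (φ - t))]
  rw [hre, him]
  refine ⟨mul_nonpos_of_nonneg_of_nonpos hpos.le hc, by nlinarith⟩

/-- The real part of subobjects is bounded below. -/
lemma StabCond.exists_re_bound (σ : StabCond C) {t : ℝ} {E : C} (hE : σ.sl.Heart t E) :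
    ∃ M : ℝ, 0 ≤ M ∧ ∀ (F Q : C) (f : F ⟶ E) (g : E ⟶ Q), SES (σ.sl.Heart t) f g →
      - M ≤ σ.re t (cls F) := by
  classical
  have hab := σ.sl.heart_ab t
  obtain ⟨l, hl, hI⟩ := hE
  set U : Set ℝ := Set.Ioi (t + 1 / 2) with hUdef
  have hU : IsUpperSet U := isUpperSet_Ioi _
  obtain ⟨T, B, a, b, d, hT, hT1, hB1⟩ := hl.trunc U hU
  have h1 : σ.sl.Heart t T := ⟨_, hT1, fun φ hφ => hI φ (List.mem_filter.1 hφ).1⟩
  have h2 : σ.sl.Heart t B := ⟨_, hB1, fun φ hφ => hI φ (List.mem_filter.1 hφ).1⟩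
  have h3 : σ.sl.In U T := ⟨_, hT1, fun φ hφ => by simpa using (List.mem_filter.1 hφ).2⟩
  have h4 : σ.sl.In Uᶜ B := ⟨_, hB1, fun φ hφ => by simpa using (List.mem_filter.1 hφ).2⟩
  have hs' : SES (σ.sl.Heart t) a b := ⟨h1, ⟨l, hl, hI⟩, h2, d, hT⟩
  -- sign of the real part
  have hlow : ∀ X, σ.sl.Heart t X → σ.sl.In Uᶜ X → 0 ≤ σ.re t (cls X) := by
    rintro X ⟨m, hm, hmI⟩ hX
    refine hm.nonneg _ (fun φ hφ Y hY _ => (σ.re_nonneg_low hY (hmI φ hφ).1 ?_).1)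
    exact not_lt.1 (hm.mem_lower hU hX φ hφ)
  have hhigh : ∀ X, σ.sl.Heart t X → σ.sl.In U X → σ.re t (cls X) ≤ 0 := by
    rintro X ⟨m, hm, hmI⟩ hX
    have := hm.nonneg (-(σ.re t)) (fun φ hφ Y hY _ => by
      rw [AddMonoidHom.neg_apply]
      have := (σ.re_nonpos_high hY (hm.mem_upper hU hX φ hφ) (hmI φ hφ).2).1
      linarith)
    rw [AddMonoidHom.neg_apply] at this
    linarith
  refine ⟨- σ.re t (cls T), by linarith [hhigh T h1 h3], ?_⟩
  intro F Q f g hs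
  obtain ⟨K, I, X', Y', k, p, k', x, i, y, e1, e2, e3⟩ := hab.inter hs hs'
  have h5 := hlow I e3.1 (σ.sub_In hU e3 h4)
  have h6 := hhigh X' e2.2.2.1 (σ.quot_In hU e2 h3)
  have h7 := e1.cls_eq
  have h8 := e2.cls_eq
  rw [h8, h7, map_add, map_add]
  linarith

variable [Linear ℂ C] [∀ n : ℤ, (shiftFunctor C n).Linear ℂ]

/-- Finiteness of the classes of subobjects with bounded slope. -/
lemma StabCond.bddCat [Module.Finite ℤ (K0 C)] [Module.Free ℤ (K0 C)] (σ : StabCond C)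
    {t ε : ℝ} {u : K0 C →+ ℝ} (hu : σ.Small ε u) (hε0 : 0 ≤ ε) (hε1 : ε < 1) :
    BddCat (σ.sl.Heart t) (σ.re t + u) := by
  classical
  intro E hE c
  have hab := σ.sl.heart_ab t
  obtain ⟨M, hM0, hM⟩ := σ.exists_re_bound hE
  set I : ℝ := σ.im t (cls E) with hIdef
  set R : ℝ := (|c| + M + ε * (M + 2 * I)) / (1 - ε) with hR
  have hfin := (σ.finite_configs (M + I + (R + I))).image (fun s => s.sum)
  refine hfin.subset ?_
  rintro x ⟨⟨F, Q, f, g, hs, rfl⟩, hx⟩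
  have hI0 : 0 ≤ I := σ.im_nonneg hE
  obtain ⟨l, hl, hI⟩ := hs.1
  set U : Set ℝ := Set.Ioi (t + 1 / 2) with hUdef
  have hU : IsUpperSet U := isUpperSet_Ioi _
  obtain ⟨T, B, a, b, d, hT, hT1, hB1⟩ := hl.trunc U hU
  have h1 : σ.sl.Heart t T := ⟨_, hT1, fun φ hφ => hI φ (List.mem_filter.1 hφ).1⟩
  have h2 : σ.sl.Heart t B := ⟨_, hB1, fun φ hφ => hI φ (List.mem_filter.1 hφ).1⟩
  have hs' : SES (σ.sl.Heart t) a b := ⟨h1, ⟨l, hl, hI⟩, h2, d, hT⟩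
  have hTI : ∀ φ ∈ l.filter (· ∈ U), t + 1 / 2 < φ ∧ φ ≤ t + 1 := by
    intro φ hφ
    obtain ⟨h3, h4⟩ := List.mem_filter.1 hφ
    exact ⟨by simpa [hUdef] using h4, (hI φ h3).2⟩
  have hBI : ∀ φ ∈ l.filter (· ∉ U), t < φ ∧ φ ≤ t + 1 / 2 := by
    intro φ hφ
    obtain ⟨h3, h4⟩ := List.mem_filter.1 hφ
    exact ⟨(hI φ h3).1, by simpa [hUdef] using h4⟩
  have hgT : ∀ φ ∈ l.filter (· ∈ U), ∀ Y, σ.sl.P φ Y → ¬ IsZero Y →
      ‖σ.Z (cls Y)‖ ≤ (-(σ.re t) + σ.im t) (cls Y) := by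
    intro φ hφ Y hY _
    exact (σ.re_nonpos_high hY (hTI φ hφ).1 (hTI φ hφ).2).2
  have hgB : ∀ φ ∈ l.filter (· ∉ U), ∀ Y, σ.sl.P φ Y → ¬ IsZero Y →
      ‖σ.Z (cls Y)‖ ≤ (σ.re t + σ.im t) (cls Y) := by
    intro φ hφ Y hY _
    exact (σ.re_nonneg_low hY (hBI φ hφ).1 (hBI φ hφ).2).2
  obtain ⟨s1, hs1, hsum1, hm1⟩ := σ.config_mass hT1 _ hgT
  obtain ⟨s2, hs2, hsum2, hm2⟩ := σ.config_mass hB1 _ hgB
  have hu1 := hu.bound hε0 hT1 _ hgT
  have hu2 := hu.bound hε0 hB1 _ hgB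
  simp only [AddMonoidHom.add_apply, AddMonoidHom.neg_apply] at hm1 hm2 hu1 hu2 hx
  -- the bound for the real part of T
  obtain ⟨Q', q', m', n', e1, -⟩ := hs'.comp hab hs
  have h5 := hM _ _ _ _ e1
  have h6 := σ.im_nonneg h1
  have h7 := σ.im_nonneg h2
  have h8 := σ.im_nonneg hs.2.2.1
  have h9 : σ.im t (cls F) = σ.im t (cls T) + σ.im t (cls B) := by rw [hs'.cls_eq, map_add]
  have h10 : I = σ.im t (cls F) + σ.im t (cls Q) := by rw [hIdef, hs.cls_eq, map_add]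
  rw [hs'.cls_eq, map_add, map_add] at hx
  have h11 := neg_le_of_abs_le hu1
  have h12 := neg_le_of_abs_le hu2
  have hc := le_abs_self c
  have h13 : (1 - ε) * σ.re t (cls B) ≤ |c| + M + ε * (M + 2 * I) := by
    have e2 : ε * (-σ.re t (cls T) + σ.im t (cls T)) ≤ ε * (M + I) :=
      mul_le_mul_of_nonneg_left (by linarith) hε0
    have e3 : ε * (σ.re t (cls B) + σ.im t (cls B)) ≤ ε * (σ.re t (cls B) + I) :=
      mul_le_mul_of_nonneg_left (by linarith) hε0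
    nlinarith
  have h14 : σ.re t (cls B) ≤ R := by
    rw [hR, le_div_iff₀ (by linarith)]
    linarith
  refine ⟨s1 + s2, ⟨?_, ?_⟩, ?_⟩
  · intro x hx
    rcases Multiset.mem_add.1 hx with h | h
    · exact hs1 x h
    · exact hs2 x h
  · rw [StabCond.mass_add]
    linarith
  · show (s1 + s2).sum = cls F
    rw [Multiset.sum_add, hsum1, hsum2, hs'.cls_eq]

end

end Pool.Stab
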