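import Mathlib
import Pool.Agent.Work.MP_841263_c.Est

/-!
# Deformation of a stability condition with fixed heart `P(t, t+1]`
-/

open CategoryTheory CategoryTheory.Limits CategoryTheory.Pretriangulated
open scoped ZeroObject TensorProduct

set_option backward.isDefEq.respectTransparency false
set_option backward.defeqAttrib.useBackward true
set_option linter.unusedSectionVars false

namespace Pool.Stab

universe v u

variable {C : Type u} [Category.{v} C] [Preadditive C] [HasZeroObject C] [HasShift C ℤ]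
  [∀ n : ℤ, (shiftFunctor C n).Additive] [Pretriangulated C]

/-- The imaginary part of a charge rotated by `-π t`. -/
noncomputable def rotIm (W : K0 C →+ ℂ) (t : ℝ) : K0 C →+ ℝ :=
  (Complex.imAddGroupHom.comp (AddMonoidHom.mulRight (Complex.exp (-(Real.pi * t * Complex.I))))).comp
    W

/-- The real part of a charge rotated by `-π t`. -/
noncomputable def rotRe (W : K0 C →+ ℂ) (t : ℝ) : K0 C →+ ℝ :=
  (Complex.reAddGroupHom.comp (AddMonoidHom.mulRight (Complex.exp (-(Real.pi * t * Complex.I))))).comp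
    W

lemma rotIm_apply (W : K0 C →+ ℂ) (t : ℝ) (x : K0 C) :
    rotIm W t x = (W x * Complex.exp (-(Real.pi * t * Complex.I))).im := rfl

lemma rotRe_apply (W : K0 C →+ ℂ) (t : ℝ) (x : K0 C) :
    rotRe W t x = (W x * Complex.exp (-(Real.pi * t * Complex.I))).re := rfl

lemma abs_rotRe_sub_le (V W : K0 C →+ ℂ) (t : ℝ) (x : K0 C) :
    |rotRe V t x - rotRe W t x| ≤ ‖V x - W x‖ := by
  rw [rotRe_apply, rotRe_apply, ← Complex.sub_re, ← sub_mul]
  refine (Complex.abs_re_le_norm _).trans ?_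
  rw [norm_mul, norm_exp_rot, mul_one]

lemma exp_pi_int (n : ℤ) : Complex.exp (Real.pi * n * Complex.I) = ((n.negOnePow : ℤ) : ℂ) := by
  rcases Int.even_or_odd n with h | h
  · rw [Int.negOnePow_even n h]
    obtain ⟨k, rfl⟩ := h
    have : (Real.pi * ((k + k : ℤ) : ℂ) * Complex.I) = (k : ℂ) * (2 * Real.pi * Complex.I) := by
      push_cast; ring
    rw [this, Complex.exp_int_mul_two_pi_mul_I]
    simp
  · rw [Int.negOnePow_odd n h]
    obtain ⟨k, rfl⟩ := h
    have : (Real.pi * ((2 * k + 1 : ℤ) : ℂ) * Complex.I) =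
        (k : ℂ) * (2 * Real.pi * Complex.I) + Real.pi * Complex.I := by
      push_cast; ring
    rw [this, Complex.exp_add, Complex.exp_int_mul_two_pi_mul_I, Complex.exp_pi_mul_I]
    simp

lemma sin_gap1 {a b ε δ : ℝ} (ha0 : 0 < a) (ha1 : a < 1) (hb1 : b < 1) (hab : a + δ < b)
    (hδ0 : 0 < δ) (hδ : δ ≤ 1 / 2) (hε0 : 0 ≤ ε) (hε1 : ε ≤ 1)
    (hε : ε ≤ Real.sin (Real.pi * δ)) :
    ε * Real.sin (Real.pi * a) < Real.sin (Real.pi * (b - a)) := by
  have hpi := Real.pi_pos
  have hA : 0 < Real.sin (Real.pi * a) :=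
    Real.sin_pos_of_pos_of_lt_pi (by positivity) (by nlinarith)
  have hA1 := Real.sin_le_one (Real.pi * a)
  have hx : Real.pi * δ < Real.pi * (b - a) := mul_lt_mul_of_pos_left (by linarith) hpi
  by_cases h : Real.pi * (b - a) ≤ Real.pi / 2
  · have h1 : Real.sin (Real.pi * δ) < Real.sin (Real.pi * (b - a)) :=
      Real.sin_lt_sin_of_lt_of_le_pi_div_two (by nlinarith) h hx
    nlinarith
  · push Not at h
    have h2 : Real.sin (Real.pi * a) < Real.sin (Real.pi - Real.pi * (b - a)) :=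
      Real.sin_lt_sin_of_lt_of_le_pi_div_two (by nlinarith) (by linarith) (by nlinarith)
    rw [Real.sin_pi_sub] at h2
    nlinarith

lemma sin_gap2 {a b ε δ : ℝ} (ha0 : 0 < a) (ha1 : a < 1) (hb0 : 0 < b) (hab : b < a - δ)
    (hδ0 : 0 < δ) (hδ : δ ≤ 1 / 2) (hε0 : 0 ≤ ε) (hε1 : ε ≤ 1)
    (hε : ε ≤ Real.sin (Real.pi * δ)) :
    ε * Real.sin (Real.pi * a) < Real.sin (Real.pi * (a - b)) := by
  have := sin_gap1 (a := 1 - a) (b := 1 - b) (ε := ε) (δ := δ) (by linarith) (by linarith)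
    (by linarith) (by linarith) hδ0 hδ hε0 hε1 hε
  have e1 : Real.pi * (1 - a) = Real.pi - Real.pi * a := by ring
  have e2 : Real.pi * (1 - b - (1 - a)) = Real.pi * (a - b) := by ring
  rwa [e1, e2, Real.sin_pi_sub] at this

section

variable [IsTriangulated C]

lemma StabCond.Gap.posCat {σ : StabCond C} {t : ℝ} (H : σ.Gap t) :
    PosCat (σ.sl.Heart t) (σ.im t) :=
  { σ.sl.heart_ab t with pos := fun _ hX h0 => H.im_pos hX h0 }

/-- The phases of the factors of an object which is semistable for the new slope. -/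
lemma StabCond.Gap.window {σ : StabCond C} {t ε δ : ℝ} (H : σ.Gap t) {u : K0 C →+ ℝ}
    (hu : σ.Small ε u) (hδ0 : 0 < δ) (hδ : δ ≤ 1 / 2) (hε0 : 0 ≤ ε) (hε1 : ε ≤ 1)
    (hε : ε ≤ Real.sin (Real.pi * δ)) {E : C}
    (hE : SSt (σ.sl.Heart t) (σ.im t) (σ.re t + u) E) (hE0 : ¬ IsZero E) :
    σ.sl.In (Set.Icc (ph (σ.im t) (σ.re t + u) t (cls E) - δ)
      (ph (σ.im t) (σ.re t + u) t (cls E) + δ)) E := by
  classical
  have hpi := Real.pi_pos
  set im := σ.im t with himdef
  set w := σ.re t + u with hwdef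
  have hpos := H.im_pos hE.1 hE0
  set p := ph im w t (cls E) with hp
  obtain ⟨hp1, hp2⟩ := ph_mem (w := w) (t := t) hpos
  rw [← hp] at hp1 hp2
  obtain ⟨r, hr, hw, hi⟩ := ph_polar (w := w) t hpos
  rw [← hp] at hw hi
  set a := p - t with ha
  have ha0 : 0 < a := by linarith
  have ha1 : a < 1 := by linarith
  have hsin : 0 < Real.sin (Real.pi * a) :=
    Real.sin_pos_of_pos_of_lt_pi (by positivity) (by nlinarith)
  -- the functional
  set L : K0 C →+ ℝ := (Real.cos (Real.pi * a)) • im - (Real.sin (Real.pi * a)) • w with hL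
  have hLval : ∀ (φ : ℝ) (Y : C), σ.sl.P φ Y → ¬ IsZero Y →
      L (cls Y) = ‖σ.Z (cls Y)‖ * Real.sin (Real.pi * (φ - t - a)) -
        Real.sin (Real.pi * a) * u (cls Y) := by
    intro φ Y hY hY0
    obtain ⟨-, hre, him⟩ := σ.polar t hY hY0
    rw [hL, hwdef, himdef]
    simp only [AddMonoidHom.sub_apply, AddMonoidHom.smul_apply, AddMonoidHom.add_apply,
      smul_eq_mul]
    rw [hre, him]
    have : Real.pi * (φ - t - a) = Real.pi * (φ - t) - Real.pi * a := by ring
    rw [this, Real.sin_sub]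
    ring
  have hLlin : ∀ x, Real.sin (Real.pi * a) * lin im w (cls E) x = - (im (cls E) * L x) := by
    intro x
    rw [lin_apply, hL]
    simp only [AddMonoidHom.sub_apply, AddMonoidHom.smul_apply, smul_eq_mul]
    rw [hw, hi]
    ring
  obtain ⟨l, hl, hI⟩ := hE.1
  -- all phases are smaller than `t + 1`
  have hI' : ∀ φ ∈ l, ∀ Y, σ.sl.P φ Y → ¬ IsZero Y → φ < t + 1 := by
    intro φ hφ Y hY hY0
    refine lt_of_le_of_ne (hI φ hφ).2 ?_
    rintro rfl
    exact hY0 (H Y hY)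
  -- upper bound
  have hup : ∀ φ ∈ l, φ ≤ p + δ := by
    set U : Set ℝ := Set.Ioi (p + δ) with hUdef
    have hU : IsUpperSet U := isUpperSet_Ioi _
    obtain ⟨T, B, f, g, d, hT, hT1, hB1⟩ := hl.trunc U hU
    have h1 : σ.sl.Heart t T := ⟨_, hT1, fun φ hφ => hI φ (List.mem_filter.1 hφ).1⟩
    have h2 : σ.sl.Heart t B := ⟨_, hB1, fun φ hφ => hI φ (List.mem_filter.1 hφ).1⟩
    have hs : SES (σ.sl.Heart t) f g := ⟨h1, hE.1, h2, d, hT⟩
    by_contra hcon
    push Not at hcon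
    obtain ⟨φ, hφ, hφ2⟩ := hcon
    have hne : l.filter (· ∈ U) ≠ [] := by
      apply List.ne_nil_of_mem (a := φ)
      exact List.mem_filter.2 ⟨hφ, by simpa [hUdef] using hφ2⟩
    have h3 : 0 < L (cls T) := by
      refine hT1.pos L ?_ hne
      intro ψ hψ Y hY hY0
      obtain ⟨h4, h5⟩ := List.mem_filter.1 hψ
      have h6 : p + δ < ψ := by simpa [hUdef] using h5
      have h7 := hI' ψ h4 Y hY hY0
      rw [hLval ψ Y hY hY0]
      have h8 := sin_gap1 (a := a) (b := ψ - t) ha0 ha1 (by linarith)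
        (by linarith) hδ0 hδ hε0 hε1 hε
      have h9 := (σ.polar t hY hY0).1
      have h10 := (le_abs_self (u (cls Y))).trans (hu ψ Y hY)
      nlinarith [mul_lt_mul_of_pos_left h8 h9, mul_le_mul_of_nonneg_left h10 hsin.le]
    have h4 := hE.2.2 _ hs.left_mem
    have h5 := hLlin (cls T)
    have h6 : 0 ≤ Real.sin (Real.pi * a) * lin im w (cls E) (cls T) :=
      mul_nonneg hsin.le h4
    rw [h5] at h6
    have h7 : 0 < im (cls E) * L (cls T) := mul_pos hpos h3
    linarith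
  -- lower bound
  have hlow : ∀ φ ∈ l, p - δ ≤ φ := by
    set U : Set ℝ := Set.Ici (p - δ) with hUdef
    have hU : IsUpperSet U := isUpperSet_Ici _
    obtain ⟨T, B, f, g, d, hT, hT1, hB1⟩ := hl.trunc U hU
    have h1 : σ.sl.Heart t T := ⟨_, hT1, fun φ hφ => hI φ (List.mem_filter.1 hφ).1⟩
    have h2 : σ.sl.Heart t B := ⟨_, hB1, fun φ hφ => hI φ (List.mem_filter.1 hφ).1⟩
    have hs : SES (σ.sl.Heart t) f g := ⟨h1, hE.1, h2, d, hT⟩
    by_contra hcon
    push Not at hcon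
    obtain ⟨φ, hφ, hφ2⟩ := hcon
    have hne : l.filter (· ∉ U) ≠ [] := by
      apply List.ne_nil_of_mem (a := φ)
      exact List.mem_filter.2 ⟨hφ, by simp [hUdef]; linarith⟩
    have h3 : 0 < (-L) (cls B) := by
      refine hB1.pos (-L) ?_ hne
      intro ψ hψ Y hY hY0
      obtain ⟨h4, h5⟩ := List.mem_filter.1 hψ
      have h6' : ψ + δ < p := by simpa [hUdef] using h5
      have h6 : ψ < p - δ := by linarith
      have h7 := (hI ψ h4).1
      rw [AddMonoidHom.neg_apply, hLval ψ Y hY hY0]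
      have h8 := sin_gap2 (a := a) (b := ψ - t) ha0 ha1 (by linarith)
        (by linarith) hδ0 hδ hε0 hε1 hε
      have h9 := (σ.polar t hY hY0).1
      have h10 := neg_le_of_abs_le (hu ψ Y hY)
      have h11 : Real.sin (Real.pi * (ψ - t - a)) = - Real.sin (Real.pi * (a - (ψ - t))) := by
        rw [← Real.sin_neg]; congr 1; ring
      rw [h11]
      nlinarith [mul_lt_mul_of_pos_left h8 h9, mul_le_mul_of_nonneg_left h10 hsin.le]
    rw [AddMonoidHom.neg_apply] at h3
    have h4 := hE.quot_le hs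
    have h5 := hLlin (cls B)
    have h6 : Real.sin (Real.pi * a) * lin im w (cls E) (cls B) ≤ 0 :=
      mul_nonpos_of_nonneg_of_nonpos hsin.le h4
    rw [h5] at h6
    have h7 : 0 < im (cls E) * (- L (cls B)) := mul_pos hpos h3
    linarith
  exact ⟨l, hl, fun φ hφ => ⟨hlow φ hφ, hup φ hφ⟩⟩

/-- The support property. -/
lemma StabCond.support_aux {σ : StabCond C} {t ε δ p : ℝ} {u : K0 C →+ ℝ}
    (hu : σ.Small ε u) (hδ0 : 0 < δ) (hδ : δ ≤ 1 / 2) (hε0 : 0 ≤ ε)
    {N : Seminorm ℝ (ℝ ⊗[ℤ] K0 C)} {c : ℝ} (hc : 0 < c)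
    (hN : ∀ (φ : ℝ) (X : C), σ.sl.P φ X → N (1 ⊗ₜ[ℤ] cls X) ≤ c * ‖σ.Z (cls X)‖)
    {X : C} {l : List ℝ} (hX : HN σ.sl.P X l) (hl : ∀ φ ∈ l, φ ∈ Set.Icc (p - δ) (p + δ)) :
    (Real.cos (Real.pi * δ) - ε) * N (1 ⊗ₜ[ℤ] cls X) ≤
      c * (Real.cos (Real.pi * (p - t)) * (σ.re t + u) (cls X) +
        Real.sin (Real.pi * (p - t)) * σ.im t (cls X)) ∨ Real.cos (Real.pi * δ) - ε ≤ 0 := by
  have hpi := Real.pi_pos
  by_cases hk : Real.cos (Real.pi * δ) - ε ≤ 0
  · exact Or.inr hk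
  left
  push Not at hk
  induction hX with
  | zero h => simp [cls_of_isZero h]
  | @step X Y A φ l hX hφ hA hA0 f g k hT ih =>
    have h1 := ih (fun χ hχ => hl χ (by simp [hχ]))
    obtain ⟨h2, h3⟩ := hl φ (by simp)
    have h4 := hN φ A hA
    obtain ⟨h5, hre, him⟩ := σ.polar t hA hA0
    have h6 := hu φ A hA
    have h7 : N (1 ⊗ₜ[ℤ] cls Y) ≤ N (1 ⊗ₜ[ℤ] cls X) + N (1 ⊗ₜ[ℤ] cls A) := by
      rw [cls_mk hT, TensorProduct.tmul_add]
      exact map_add_le_add N _ _
    have h8 : (Real.cos (Real.pi * δ) - ε) * ‖σ.Z (cls A)‖ ≤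
        Real.cos (Real.pi * (p - t)) * (σ.re t + u) (cls A) +
          Real.sin (Real.pi * (p - t)) * σ.im t (cls A) := by
      have h9 : Real.cos (Real.pi * δ) ≤ Real.cos (Real.pi * (φ - p)) := by
        rw [← Real.cos_abs (Real.pi * (φ - p))]
        apply Real.cos_le_cos_of_nonneg_of_le_pi (abs_nonneg _)
        · nlinarith
        · rw [abs_mul, abs_of_pos hpi]
          exact mul_le_mul_of_nonneg_left (abs_le.2 ⟨by linarith, by linarith⟩) hpi.le
      have h10 : Real.cos (Real.pi * (φ - p)) =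
          Real.cos (Real.pi * (p - t)) * Real.cos (Real.pi * (φ - t)) +
            Real.sin (Real.pi * (p - t)) * Real.sin (Real.pi * (φ - t)) := by
        have : Real.pi * (φ - p) = Real.pi * (φ - t) - Real.pi * (p - t) := by ring
        rw [this, Real.cos_sub]; ring
      have h11 : |Real.cos (Real.pi * (p - t)) * u (cls A)| ≤ ε * ‖σ.Z (cls A)‖ := by
        rw [abs_mul]
        calc |Real.cos (Real.pi * (p - t))| * |u (cls A)| ≤ 1 * |u (cls A)| :=
              mul_le_mul_of_nonneg_right (Real.abs_cos_le_one _) (abs_nonneg _)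
          _ ≤ ε * ‖σ.Z (cls A)‖ := by rw [one_mul]; exact h6
      have h12 := neg_le_of_abs_le h11
      rw [AddMonoidHom.add_apply, hre, him]
      have h13 := mul_le_mul_of_nonneg_right h9 h5.le
      rw [h10] at h13
      nlinarith
    have h9 := mul_le_mul_of_nonneg_left h4 hk.le
    have h10 := mul_le_mul_of_nonneg_left h8 hc.le
    have h11 := mul_le_mul_of_nonneg_left h7 hk.le
    rw [cls_mk hT] at h11 ⊢
    simp only [map_add, AddMonoidHom.add_apply] at h1 h10 ⊢
    nlinarith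

end

section Linear

variable [IsTriangulated C] [Linear ℂ C] [∀ n : ℤ, (shiftFunctor C n).Linear ℂ]
variable [Module.Finite ℤ (K0 C)] [Module.Free ℤ (K0 C)]

/-- **Deformation with fixed heart.** -/
theorem StabCond.Gap.exists_deform {σ : StabCond C} {t ε δ : ℝ} (H : σ.Gap t) (hε0 : 0 ≤ ε)
    (hδ0 : 0 < δ) (hδ : δ ≤ 1 / 8) (hε : ε ≤ Real.sin (Real.pi * δ)) (W : K0 C →+ ℂ)
    (him : rotIm W t = σ.im t)
    (hW : ∀ (φ : ℝ) (X : C), σ.sl.P φ X →
      ‖W (cls X) - σ.Z (cls X)‖ ≤ ε * ‖σ.Z (cls X)‖) :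
    ∃ τ : StabCond C, τ.Z = W ∧ ∀ (φ : ℝ) (X : C), τ.sl.P φ X →
      σ.sl.In (Set.Icc (φ - δ) (φ + δ)) X := by
  have hpi := Real.pi_pos
  set u : K0 C →+ ℝ := rotRe W t - σ.re t with hudef
  have hw : σ.re t + u = rotRe W t := by rw [hudef]; abel
  have hu : σ.Small ε u := by
    intro φ X hX
    exact (abs_rotRe_sub_le W σ.Z t (cls X)).trans (hW φ X hX)
  -- the size of ε
  have hsc : Real.sin (Real.pi * δ) < Real.cos (Real.pi * δ) := by
    rw [← Real.sin_pi_div_two_sub]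
    exact Real.sin_lt_sin_of_lt_of_le_pi_div_two (by nlinarith) (by nlinarith) (by nlinarith)
  have hκ : 0 < Real.cos (Real.pi * δ) - ε := by linarith
  have hε1 : ε < 1 := by linarith [Real.cos_le_one (Real.pi * δ)]
  have hpc := H.posCat
  have hb : BddCat (σ.sl.Heart t) (σ.re t + u) := σ.bddCat hu hε0 hε1
  -- the rotated charge of a semistable object of the heart
  have hcharge : ∀ Y : C, SSt (σ.sl.Heart t) (σ.im t) (σ.re t + u) Y → ¬ IsZero Y →
      ∃ r : ℝ, 0 < r ∧ ‖W (cls Y)‖ = r ∧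
        W (cls Y) = r * Complex.exp (Real.pi *
          ((ph (σ.im t) (σ.re t + u) t (cls Y) : ℝ) : ℂ) * Complex.I) ∧
        (σ.re t + u) (cls Y) = r * Real.cos (Real.pi *
          (ph (σ.im t) (σ.re t + u) t (cls Y) - t)) ∧
        σ.im t (cls Y) = r * Real.sin (Real.pi *
          (ph (σ.im t) (σ.re t + u) t (cls Y) - t)) := by
    intro Y hY hY0
    obtain ⟨r, hr, h1, h2⟩ := ph_polar (w := σ.re t + u) t (H.im_pos hY.1 hY0)
    set p := ph (σ.im t) (σ.re t + u) t (cls Y) with hp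
    have h3 : W (cls Y) = r * Complex.exp (Real.pi * (p : ℂ) * Complex.I) := by
      have h4 : W (cls Y) * Complex.exp (-(Real.pi * t * Complex.I)) =
          r * Complex.exp (Real.pi * ((p - t : ℝ) : ℂ) * Complex.I) := by
        have e1 : (Real.pi * ((p - t : ℝ) : ℂ) * Complex.I : ℂ) =
            ((Real.pi * (p - t) : ℝ) : ℂ) * Complex.I := by push_cast; ring
        rw [e1, Complex.exp_mul_I, ← Complex.ofReal_cos, ← Complex.ofReal_sin]
        apply Complex.ext
        · rw [re_aux, ← h1, hw, rotRe_apply]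
        · rw [im_aux, ← h2, ← him, rotIm_apply]
      have e2 : Complex.exp (-(Real.pi * t * Complex.I)) * Complex.exp (Real.pi * t * Complex.I) =
          1 := by rw [← Complex.exp_add]; simp
      calc W (cls Y) = W (cls Y) * Complex.exp (-(Real.pi * t * Complex.I)) *
            Complex.exp (Real.pi * t * Complex.I) := by rw [mul_assoc, e2, mul_one]
        _ = r * Complex.exp (Real.pi * (p : ℂ) * Complex.I) := by
            rw [h4, mul_assoc, ← Complex.exp_add]
            congr 2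
            push_cast; ring
    refine ⟨r, hr, ?_, h3, h1, h2⟩
    rw [h3, norm_mul]
    have e1 : (Real.pi * (p : ℂ) * Complex.I : ℂ) = ((Real.pi * p : ℝ) : ℂ) * Complex.I := by
      push_cast; ring
    rw [e1, Complex.norm_exp_ofReal_mul_I, mul_one, Complex.norm_real, Real.norm_eq_abs,
      abs_of_pos hr]
  obtain ⟨N, c, hN0, hc, hN⟩ := σ.support
  refine ⟨{ sl := newSl σ.sl t (σ.im t) (σ.re t + u) hpc hb
            Z := W
            compat := ?_
            support := ?_ }, rfl, ?_⟩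
  · intro φ X hX hX0
    obtain ⟨n, Y, h1, h2, rfl, ⟨e⟩⟩ := hX.resolve_left hX0
    obtain ⟨r, hr, -, h3, -, -⟩ := hcharge Y h1 h2
    refine ⟨r, hr, ?_⟩
    rw [cls_iso e, cls_shift, map_zsmul, h3, zsmul_eq_mul, ← exp_pi_int]
    have : (Real.pi * ((ph (σ.im t) (σ.re t + u) t (cls Y) + n : ℝ) : ℂ) * Complex.I : ℂ) =
      Real.pi * n * Complex.I +
        Real.pi * ((ph (σ.im t) (σ.re t + u) t (cls Y) : ℝ) : ℂ) * Complex.I := by
      push_cast; ring
    rw [this, Complex.exp_add]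
    ring
  · refine ⟨N, c / (Real.cos (Real.pi * δ) - ε), hN0, by positivity, ?_⟩
    intro φ X hX
    by_cases hX0 : IsZero X
    · simp [cls_of_isZero hX0]
    obtain ⟨n, Y, h1, h2, rfl, ⟨e⟩⟩ := hX.resolve_left hX0
    obtain ⟨r, hr, hnorm, h3, h4, h5⟩ := hcharge Y h1 h2
    obtain ⟨l, hl, hI⟩ := H.window hu hδ0 (by linarith) hε0 hε1.le hε h1 h2
    have h6 := (StabCond.support_aux (t := t) hu hδ0 (by linarith) hε0 hc hN hl hI).resolve_right
      (not_le.2 hκ)
    rw [h4, h5] at h6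
    set p := ph (σ.im t) (σ.re t + u) t (cls Y) with hp
    have h7 : Real.cos (Real.pi * (p - t)) * (r * Real.cos (Real.pi * (p - t))) +
        Real.sin (Real.pi * (p - t)) * (r * Real.sin (Real.pi * (p - t))) = r := by
      nlinarith [Real.sin_sq_add_cos_sq (Real.pi * (p - t))]
    rw [h7, ← hnorm] at h6
    have h8 : N (1 ⊗ₜ[ℤ] cls Y) ≤ c / (Real.cos (Real.pi * δ) - ε) * ‖W (cls Y)‖ := by
      rw [div_mul_eq_mul_div, le_div_iff₀ hκ]
      linarith
    rw [cls_iso e, cls_shift]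
    rcases Int.even_or_odd n with hn | hn
    · rw [Int.negOnePow_even n hn]
      simpa using h8
    · rw [Int.negOnePow_odd n hn]
      have e3 : ((-1 : ℤˣ) : ℤ) • cls Y = - cls Y := by simp
      rw [e3, TensorProduct.tmul_neg, map_neg_eq_map, map_neg, norm_neg]
      exact h8
  · intro φ X hX
    by_cases hX0 : IsZero X
    · exact Slicing.in_of_isZero _ hX0
    obtain ⟨n, Y, h1, h2, rfl, ⟨e⟩⟩ := hX.resolve_left hX0
    have h3 := (H.window hu hδ0 (by linarith) hε0 hε1.le hε h1 h2).shift n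
    refine (h3.iso e.symm).mono ?_
    rintro _ ⟨x, ⟨hx1, hx2⟩, rfl⟩
    exact ⟨by linarith, by linarith⟩

end Linear

end Pool.Stab
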