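import Mathlib
import Pool.Agent.Work.MP_841263_st.Top
import Pool.Agent.Work.MP_841263_c.Glue

/-!
# The distance of slicings; stability conditions with the same charge
-/

open CategoryTheory CategoryTheory.Limits CategoryTheory.Pretriangulated
open scoped ZeroObject TensorProduct

set_option backward.isDefEq.respectTransparency false
set_option backward.defeqAttrib.useBackward true
set_option linter.unusedSectionVars false

namespace Pool.Stab

universe v u

variable {C : Type u} [Category.{v} C] [Preadditive C] [HasZeroObject C] [HasShift C ℤ]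
  [∀ n : ℤ, (shiftFunctor C n).Additive] [Pretriangulated C]

lemma HN.ne_nil {P : ℝ → ObjectProperty C} {X : C} {l : List ℝ} (h : HN P X l)
    (h0 : ¬ IsZero X) : l ≠ [] := by
  rintro rfl
  exact h0 h.isZero

lemma exists_max_list {l : List ℝ} (hl : l ≠ []) : ∃ m ∈ l, ∀ φ ∈ l, φ ≤ m := by
  obtain ⟨m, hm, h⟩ := Finset.exists_max_image l.toFinset id
    (by rwa [List.toFinset_nonempty_iff])
  exact ⟨m, by simpa using hm, fun φ hφ => h φ (by simpa using hφ)⟩

lemma exists_min_list {l : List ℝ} (hl : l ≠ []) : ∃ m ∈ l, ∀ φ ∈ l, m ≤ φ := by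
  obtain ⟨m, hm, h⟩ := Finset.exists_min_image l.toFinset id
    (by rwa [List.toFinset_nonempty_iff])
  exact ⟨m, by simpa using hm, fun φ hφ => h φ (by simpa using hφ)⟩

lemma Iic_eq_compl (s : ℝ) : Set.Iic s = (Set.Ioi s)ᶜ := by
  ext x; simp

section

variable [IsTriangulated C]

lemma StabCond.phiPlus_le_iff (σ : StabCond C) {X : C} (h0 : ¬ IsZero X) (s : ℝ) :
    σ.phiPlus X ≤ s ↔ σ.sl.In (Set.Iic s) X := by
  obtain ⟨l, hl⟩ := σ.sl.exists_HN X
  obtain ⟨m, hm, hmax⟩ := exists_max_list (hl.ne_nil h0)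
  have hlow : ∀ t ∈ {t : ℝ | ∃ l, HN σ.sl.P X l ∧ ∀ φ ∈ l, φ ≤ t}, m ≤ t := by
    rintro t ⟨l', hl', hI⟩
    have h1 : σ.sl.In (Set.Ioi t)ᶜ X := ⟨l', hl', fun φ hφ => not_lt.2 (hI φ hφ)⟩
    exact not_lt.1 (hl.mem_lower (isUpperSet_Ioi t) h1 m hm)
  constructor
  · intro h
    have h1 : m ≤ σ.phiPlus X := le_csInf ⟨m, l, hl, hmax⟩ hlow
    exact ⟨l, hl, fun φ hφ => (hmax φ hφ).trans (h1.trans h)⟩
  · rintro ⟨l', hl', hI⟩
    exact csInf_le ⟨m, hlow⟩ ⟨l', hl', hI⟩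

lemma StabCond.le_phiMinus_iff (σ : StabCond C) {X : C} (h0 : ¬ IsZero X) (s : ℝ) :
    s ≤ σ.phiMinus X ↔ σ.sl.In (Set.Ici s) X := by
  obtain ⟨l, hl⟩ := σ.sl.exists_HN X
  obtain ⟨m, hm, hmin⟩ := exists_min_list (hl.ne_nil h0)
  have hlow : ∀ t ∈ {t : ℝ | ∃ l, HN σ.sl.P X l ∧ ∀ φ ∈ l, t ≤ φ}, t ≤ m := by
    rintro t ⟨l', hl', hI⟩
    have h1 : σ.sl.In (Set.Ici t) X := ⟨l', hl', fun φ hφ => hI φ hφ⟩
    exact hl.mem_upper (isUpperSet_Ici t) h1 m hm
  constructor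
  · intro h
    have h1 : σ.phiMinus X ≤ m := csSup_le ⟨m, l, hl, hmin⟩ hlow
    exact ⟨l, hl, fun φ hφ => (h.trans h1).trans (hmin φ hφ)⟩
  · rintro ⟨l', hl', hI⟩
    exact le_csSup ⟨m, hlow⟩ ⟨l', hl', hI⟩

/-- Semistable objects of `τ` have `σ`-phases close to their `τ`-phase. -/
def StabCond.Near (δ : ℝ) (σ τ : StabCond C) : Prop :=
  ∀ (φ : ℝ) (X : C), τ.sl.P φ X → σ.sl.In (Set.Icc (φ - δ) (φ + δ)) X

variable {σ τ : StabCond C} {δ : ℝ}

lemma StabCond.Near.up (h : StabCond.Near δ σ τ) {I U : Set ℝ} (hU : IsUpperSet U)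
    (hI : ∀ φ ∈ I, φ - δ ∈ U) {X : C} (hX : τ.sl.In I X) : σ.sl.In U X := by
  obtain ⟨l, hl, hlI⟩ := hX
  induction hl with
  | zero h0 => exact Slicing.in_of_isZero _ h0
  | @step X Y A φ l hX hφ hA hA0 f g k hT ih =>
    refine Slicing.In.ext_upper hU hT (ih (fun χ hχ => hlI χ (by simp [hχ]))) ?_
    refine (h φ A hA).mono ?_
    intro x hx
    exact hU hx.1 (hI φ (hlI φ (by simp)))

lemma StabCond.Near.low (h : StabCond.Near δ σ τ) {I U : Set ℝ} (hU : IsUpperSet U)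
    (hI : ∀ φ ∈ I, φ + δ ∉ U) {X : C} (hX : τ.sl.In I X) : σ.sl.In Uᶜ X := by
  obtain ⟨l, hl, hlI⟩ := hX
  induction hl with
  | zero h0 => exact Slicing.in_of_isZero _ h0
  | @step X Y A φ l hX hφ hA hA0 f g k hT ih =>
    refine Slicing.In.ext_lower hU hT (ih (fun χ hχ => hlI χ (by simp [hχ]))) ?_
    refine (h φ A hA).mono ?_
    intro x hx hxU
    exact hI φ (hlI φ (by simp)) (hU hx.2 hxU)

lemma StabCond.Near.rev_low (h : StabCond.Near δ σ τ) {s : ℝ} {X : C}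
    (hX : σ.sl.In (Set.Iic s) X) : τ.sl.In (Set.Iic (s + δ)) X := by
  have hU := isUpperSet_Ioi (s + δ)
  obtain ⟨X', X'', f, g, k, hT, h1, h2⟩ := τ.sl.exists_trunc X hU
  have h3 : σ.sl.In (Set.Ioi s) X' := h.up (isUpperSet_Ioi s) (fun φ hφ => by
    have : s + δ < φ := hφ
    show s < φ - δ
    linarith) h1
  have hf : f = 0 := h3.hom_zero hX (fun φ hφ ψ hψ => lt_of_le_of_lt hψ hφ) f
  have hz : IsZero X' := isZero₁_of_mor₁ hT hf
    (fun r => (h1.shift_upper hU).hom_zero h2 (IsUpperSet.sep hU) r)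
  have := iso_of_isZero₁ hT hz
  rw [Iic_eq_compl]
  exact h2.iso (asIso g).symm

lemma StabCond.Near.rev_up (h : StabCond.Near δ σ τ) {s : ℝ} {X : C}
    (hX : σ.sl.In (Set.Ici s) X) : τ.sl.In (Set.Ici (s - δ)) X := by
  have hU := isUpperSet_Ici (s - δ)
  obtain ⟨X', X'', f, g, k, hT, h1, h2⟩ := τ.sl.exists_trunc X hU
  have h3 : σ.sl.In (Set.Ici s)ᶜ X'' := h.low (isUpperSet_Ici s) (fun φ hφ => by
    have : φ < s - δ := not_le.1 hφ
    show ¬ (s ≤ φ + δ)
    linarith) h2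
  have hg : g = 0 := hX.hom_zero h3 (IsUpperSet.sep (isUpperSet_Ici s)) g
  have hz : IsZero X'' := isZero₃_of_mor₂ hT hg
    (fun r => (h1.shift_upper hU).hom_zero h2 (IsUpperSet.sep hU) r)
  have := iso_of_isZero₃ hT hz
  exact h1.iso (asIso f)

/-- Near slicings are close in the sense of the generalized metric. -/
lemma StabCond.Near.phaseDist_le (h : StabCond.Near δ σ τ) :
    σ.phaseDist τ ≤ ENNReal.ofReal δ := by
  refine iSup₂_le ?_
  intro X hX
  have h1 : |σ.phiPlus X - τ.phiPlus X| ≤ δ := by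
    have e1 : σ.phiPlus X ≤ τ.phiPlus X + δ := by
      rw [σ.phiPlus_le_iff hX, Iic_eq_compl]
      exact h.low (isUpperSet_Ioi _) (fun φ hφ => by
        have : φ ≤ τ.phiPlus X := hφ
        show ¬ (τ.phiPlus X + δ < φ + δ)
        linarith) ((τ.phiPlus_le_iff hX _).1 le_rfl)
    have e2 : τ.phiPlus X ≤ σ.phiPlus X + δ := by
      rw [τ.phiPlus_le_iff hX]
      exact h.rev_low ((σ.phiPlus_le_iff hX _).1 le_rfl)
    rw [abs_le]
    exact ⟨by linarith, by linarith⟩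
  have h2 : |σ.phiMinus X - τ.phiMinus X| ≤ δ := by
    have e1 : τ.phiMinus X - δ ≤ σ.phiMinus X := by
      rw [σ.le_phiMinus_iff hX]
      exact h.up (isUpperSet_Ici _) (fun φ hφ => by
        have : τ.phiMinus X ≤ φ := hφ
        show τ.phiMinus X - δ ≤ φ - δ
        linarith) ((τ.le_phiMinus_iff hX _).1 le_rfl)
    have e2 : σ.phiMinus X - δ ≤ τ.phiMinus X := by
      rw [τ.le_phiMinus_iff hX]
      exact h.rev_up ((σ.le_phiMinus_iff hX _).1 le_rfl)
    rw [abs_le]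
    exact ⟨by linarith, by linarith⟩
  exact max_le (ENNReal.ofReal_le_ofReal h1) (ENNReal.ofReal_le_ofReal h2)

lemma StabCond.near_of_phaseDist (hδ : 0 ≤ δ) (h : σ.phaseDist τ ≤ ENNReal.ofReal δ) :
    StabCond.Near δ σ τ := by
  intro φ X hX
  by_cases h0 : IsZero X
  · exact Slicing.in_of_isZero _ h0
  have h1 : max (ENNReal.ofReal |σ.phiPlus X - τ.phiPlus X|)
      (ENNReal.ofReal |σ.phiMinus X - τ.phiMinus X|) ≤ ENNReal.ofReal δ :=
    (le_iSup₂ (f := fun (X : C) (_ : ¬ IsZero X) =>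
      max (ENNReal.ofReal |σ.phiPlus X - τ.phiPlus X|)
        (ENNReal.ofReal |σ.phiMinus X - τ.phiMinus X|)) X h0).trans h
  have h2 := (ENNReal.ofReal_le_ofReal_iff hδ).1 ((le_max_left _ _).trans h1)
  have h3 := (ENNReal.ofReal_le_ofReal_iff hδ).1 ((le_max_right _ _).trans h1)
  have h4 : τ.phiPlus X ≤ φ := by
    rw [τ.phiPlus_le_iff h0]
    exact Slicing.in_of_P hX (Set.mem_Iic.2 le_rfl)
  have h5 : φ ≤ τ.phiMinus X := by
    rw [τ.le_phiMinus_iff h0]
    exact Slicing.in_of_P hX (Set.mem_Ici.2 le_rfl)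
  have h6 : σ.sl.In (Set.Iic (φ + δ)) X := by
    rw [← σ.phiPlus_le_iff h0]
    have := (abs_le.1 h2).2
    linarith
  have h7 : σ.sl.In (Set.Ici (φ - δ)) X := by
    rw [← σ.le_phiMinus_iff h0]
    have := (abs_le.1 h3).1
    linarith
  rw [Iic_eq_compl] at h6
  refine (Slicing.In.inter (isUpperSet_Ici _) (isUpperSet_Ioi _) h7 h6).mono ?_
  rintro x ⟨hx1, hx2⟩
  exact ⟨hx1, not_lt.1 hx2⟩

lemma Slicing.ext_P {S T : Slicing C} (h : ∀ φ X, S.P φ X ↔ T.P φ X) : S = T := by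
  have : S.P = T.P := by
    funext φ X
    exact propext (h φ X)
  cases S
  cases T
  congr

lemma StabCond.ext_P {σ τ : StabCond C} (hZ : σ.Z = τ.Z) (h : ∀ φ X, σ.sl.P φ X ↔ τ.sl.P φ X) :
    σ = τ := by
  have h1 := Slicing.ext_P h
  cases σ
  cases τ
  cases h1
  cases hZ
  rfl

lemma StabCond.im_congr {σ τ : StabCond C} (hZ : σ.Z = τ.Z) (t : ℝ) : σ.im t = τ.im t := by
  unfold StabCond.im
  rw [hZ]

/-- One half of the uniqueness. -/
lemma StabCond.P_of_near {σ τ : StabCond C} (hZ : σ.Z = τ.Z) {δ : ℝ} (hδ0 : 0 ≤ δ) (hδ : δ < 1)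
    (h1 : StabCond.Near δ σ τ) (h2 : StabCond.Near δ τ σ) {φ : ℝ} {X : C}
    (hX : σ.sl.P φ X) : τ.sl.P φ X := by
  have hpi := Real.pi_pos
  have hU := isUpperSet_Ioi φ
  have hXτ := h2 φ X hX
  obtain ⟨A, B, f, g, k, hT, hA, hB⟩ := τ.sl.exists_trunc X hU
  -- the sub-object of larger phase vanishes
  have hA0 : IsZero A := by
    by_contra hA0
    -- A has phases in (φ, φ + δ] for τ
    have hAτ : τ.sl.In (Set.Ioi (φ + δ))ᶜ A := by
      obtain ⟨a', c', hinv⟩ := exists_invrot hT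
      refine Slicing.In.ext_lower (isUpperSet_Ioi _) hinv ?_ ?_
      · refine (hB.shift_neg_one).mono ?_
        rintro _ ⟨x, hx, rfl⟩
        have : x ≤ φ := not_lt.1 hx
        show ¬ (φ + δ < x - 1)
        linarith
      · exact hXτ.mono (fun x hx => not_lt.2 hx.2)
    obtain ⟨l, hl⟩ := τ.sl.exists_HN A
    have hpos : 0 < τ.im φ (cls A) := by
      refine hl.pos _ ?_ (hl.ne_nil hA0)
      intro ψ hψ Y hY hY0
      have e1 : φ < ψ := hl.mem_upper hU hA ψ hψ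
      have e2 : ψ ≤ φ + δ := not_lt.1 (hl.mem_lower (isUpperSet_Ioi _) hAτ ψ hψ)
      exact τ.im_pos_of_P hY hY0 e1 (by linarith)
    -- A is not in P_σ(≤ φ)
    have hnot : ¬ σ.sl.In (Set.Ioi φ)ᶜ A := by
      intro hcon
      obtain ⟨m, hm⟩ := σ.sl.exists_HN A
      have hAσ : σ.sl.In (Set.Ioi (φ - δ)) A := h1.up (isUpperSet_Ioi _) (fun x hx => by
        have : φ < x := hx
        show φ - δ < x - δ
        linarith) hA
      have hle : 0 ≤ (-(σ.im φ)) (cls A) := by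
        refine hm.nonneg _ ?_
        intro ψ hψ Y hY hY0
        have e1 : φ - δ < ψ := hm.mem_upper (isUpperSet_Ioi _) hAσ ψ hψ
        have e2 : ψ ≤ φ := not_lt.1 (hm.mem_lower hU hcon ψ hψ)
        obtain ⟨hp, -, him⟩ := σ.polar φ hY hY0
        rw [AddMonoidHom.neg_apply, him]
        have : Real.sin (Real.pi * (ψ - φ)) ≤ 0 :=
          Real.sin_nonpos_of_nonpos_of_neg_pi_le (by nlinarith) (by nlinarith)
        nlinarith
      rw [AddMonoidHom.neg_apply, StabCond.im_congr hZ] at hle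
      linarith
    obtain ⟨A', A'', a, b, d, hT', hA', hA''⟩ := σ.sl.exists_trunc A hU
    apply hnot
    have hcomp : a ≫ f = 0 := hA'.hom_zero (Slicing.in_of_P hX (Set.mem_singleton φ))
      (fun x hx y hy => by
        have e1 : φ < x := hx
        have e2 : y = φ := hy
        linarith) _
    obtain ⟨a', c', hinv⟩ := exists_invrot hT
    obtain ⟨q, hq⟩ := Triangle.coyoneda_exact₂ _ hinv a hcomp
    have hB' : σ.sl.In (Set.Ioi φ)ᶜ (B⟦(-1 : ℤ)⟧) := by
      have e1 : σ.sl.In (Set.Ioi (φ + δ))ᶜ B := h1.low (isUpperSet_Ioi _) (fun x hx => by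
        have : x ≤ φ := not_lt.1 hx
        show ¬ (φ + δ < x + δ)
        linarith) hB
      refine (e1.shift_neg_one).mono ?_
      rintro _ ⟨x, hx, rfl⟩
      have : x ≤ φ + δ := not_lt.1 hx
      show ¬ (φ < x - 1)
      linarith
    have hq0 : q = 0 := hA'.hom_zero hB' (IsUpperSet.sep hU) q
    have ha0 : a = 0 := by rw [hq, hq0, zero_comp]
    have hz : IsZero A' := isZero₁_of_mor₁ hT' ha0
      (fun r => (hA'.shift_upper hU).hom_zero hA'' (IsUpperSet.sep hU) r)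
    have := iso_of_isZero₁ hT' hz
    exact hA''.iso (asIso b).symm
  have := iso_of_isZero₁ hT hA0
  have hXlow : τ.sl.In (Set.Ioi φ)ᶜ X := hB.iso (asIso g).symm
  have hheart : τ.sl.Heart (φ - 1) X := by
    refine Slicing.In.heart ?_ ?_
    · exact hXτ.mono (fun x hx => by
        have := hx.1
        show φ - 1 < x
        linarith)
    · have e : φ - 1 + 1 = φ := by ring
      rwa [e]
  have him : τ.im (φ - 1) (cls X) = 0 := by
    rw [← StabCond.im_congr hZ]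
    exact σ.im_of_P (by simpa using hX)
  have := τ.P_of_im hheart him
  simpa using this

/-- Stability conditions with the same charge at distance smaller than one are equal. -/
theorem StabCond.eq_of_phaseDist {σ τ : StabCond C} (hZ : σ.Z = τ.Z)
    (h : σ.phaseDist τ < 1) : σ = τ := by
  set δ : ℝ := (σ.phaseDist τ).toReal with hδ
  have hne : σ.phaseDist τ ≠ ⊤ := (h.trans ENNReal.one_lt_top).ne
  have hδ0 : 0 ≤ δ := ENNReal.toReal_nonneg
  have hδ1 : δ < 1 := by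
    rw [hδ]
    have := (ENNReal.toReal_lt_toReal hne ENNReal.one_ne_top).2 h
    simpa using this
  have h1 : σ.phaseDist τ ≤ ENNReal.ofReal δ := by rw [hδ, ENNReal.ofReal_toReal hne]
  have h2 : τ.phaseDist σ ≤ ENNReal.ofReal δ := by rw [StabCond.phaseDist_comm]; exact h1
  have n1 := StabCond.near_of_phaseDist hδ0 h1
  have n2 := StabCond.near_of_phaseDist hδ0 h2
  exact StabCond.ext_P hZ (fun φ X => ⟨fun hX => StabCond.P_of_near hZ hδ0 hδ1 n1 n2 hX,
    fun hX => StabCond.P_of_near hZ.symm hδ0 hδ1 n2 n1 hX⟩)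

end

end Pool.Stab
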