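import Mathlib
import Pool.Agent.Work.MP_841263_c.Deform1
import Pool.Agent.Work.MP_841263_c.Dist

/-!
# Uniform deformation of stability conditions on K3 categories
-/

open CategoryTheory CategoryTheory.Limits CategoryTheory.Pretriangulated
open scoped ZeroObject TensorProduct

set_option backward.isDefEq.respectTransparency false
set_option backward.defeqAttrib.useBackward true
set_option linter.unusedSectionVars false

namespace Pool.Stab

universe v u

variable {C : Type u} [Category.{v} C] [Preadditive C] [HasZeroObject C] [HasShift C ℤ]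
  [∀ n : ℤ, (shiftFunctor C n).Additive] [Pretriangulated C]

lemma mul_exp_rot (z : ℂ) (t : ℝ) : z * Complex.exp (-(Real.pi * t * Complex.I)) =
    ‖z‖ * (Real.cos (z.arg - Real.pi * t) + Real.sin (z.arg - Real.pi * t) * Complex.I) := by
  have h1 : z = ‖z‖ * Complex.exp (z.arg * Complex.I) := (Complex.norm_mul_exp_arg_mul_I z).symm
  conv_lhs => rw [h1]
  rw [mul_assoc, ← Complex.exp_add]
  have : (z.arg * Complex.I + -(Real.pi * t * Complex.I) : ℂ) =
      ((z.arg - Real.pi * t : ℝ) : ℂ) * Complex.I := by push_cast; ring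
  rw [this, Complex.exp_mul_I, Complex.ofReal_cos, Complex.ofReal_sin]

lemma countable_im_zero {z : ℂ} (hz : z ≠ 0) :
    {t : ℝ | (z * Complex.exp (-(Real.pi * t * Complex.I))).im = 0}.Countable := by
  refine (Set.countable_range (fun n : ℤ => (z.arg - n * Real.pi) / Real.pi)).mono ?_
  intro t ht
  have h1 : (z * Complex.exp (-(Real.pi * t * Complex.I))).im = 0 := ht
  rw [mul_exp_rot, im_aux, mul_eq_zero] at h1
  have h2 := h1.resolve_left (norm_ne_zero_iff.2 hz)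
  obtain ⟨n, hn⟩ := Real.sin_eq_zero_iff.1 h2
  refine ⟨n, ?_⟩
  have hpi := Real.pi_pos
  show (z.arg - n * Real.pi) / Real.pi = t
  rw [hn]
  field_simp
  ring

lemma countable_re_zero {z : ℂ} (hz : z ≠ 0) :
    {t : ℝ | (z * Complex.exp (-(Real.pi * t * Complex.I))).re = 0}.Countable := by
  refine (Set.countable_range
    (fun n : ℤ => (z.arg - (2 * n + 1) * Real.pi / 2) / Real.pi)).mono ?_
  intro t ht
  have h1 : (z * Complex.exp (-(Real.pi * t * Complex.I))).re = 0 := ht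
  rw [mul_exp_rot, re_aux, mul_eq_zero] at h1
  have h2 := h1.resolve_left (norm_ne_zero_iff.2 hz)
  obtain ⟨n, hn⟩ := Real.cos_eq_zero_iff.1 h2
  refine ⟨n, ?_⟩
  have hpi := Real.pi_pos
  show (z.arg - (2 * n + 1) * Real.pi / 2) / Real.pi = t
  rw [← hn]
  field_simp
  ring

lemma exists_generic_t {K : Type*} [Countable K] (V W : K → ℂ) : ∃ t : ℝ,
    (∀ x, V x ≠ 0 → (V x * Complex.exp (-(Real.pi * t * Complex.I))).im ≠ 0) ∧
    (∀ x, W x ≠ 0 → (W x * Complex.exp (-(Real.pi * t * Complex.I))).re ≠ 0) := by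
  have hc : ((⋃ x : {x : K // V x ≠ 0},
      {t : ℝ | (V x.1 * Complex.exp (-(Real.pi * t * Complex.I))).im = 0}) ∪
      (⋃ x : {x : K // W x ≠ 0},
      {t : ℝ | (W x.1 * Complex.exp (-(Real.pi * t * Complex.I))).re = 0})).Countable := by
    refine Set.Countable.union ?_ ?_
    · exact Set.countable_iUnion (fun x => countable_im_zero x.2)
    · exact Set.countable_iUnion (fun x => countable_re_zero x.2)
  obtain ⟨t, ht⟩ := (hc.dense_compl ℝ).nonempty
  refine ⟨t, ?_, ?_⟩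
  · intro x hx h0
    exact ht (Or.inl (Set.mem_iUnion.2 ⟨⟨x, hx⟩, h0⟩))
  · intro x hx h0
    exact ht (Or.inr (Set.mem_iUnion.2 ⟨⟨x, hx⟩, h0⟩))

lemma rotIm_half (W : K0 C →+ ℂ) (t : ℝ) (x : K0 C) : rotIm W (t + 1 / 2) x = - rotRe W t x := by
  rw [rotIm_apply, rotRe_apply]
  have h1 : Complex.exp (-(Real.pi * ((t + 1 / 2 : ℝ) : ℂ) * Complex.I)) =
      Complex.exp (-(Real.pi * t * Complex.I)) * (- Complex.I) := by
    have h2 : (-(Real.pi * ((t + 1 / 2 : ℝ) : ℂ) * Complex.I) : ℂ) =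
        -(Real.pi * t * Complex.I) + -(Real.pi / 2 * Complex.I) := by push_cast; ring
    rw [h2, Complex.exp_add]
    congr 1
    have h3 : (-(Real.pi / 2 * Complex.I) : ℂ) = ((-(Real.pi / 2) : ℝ) : ℂ) * Complex.I := by
      push_cast; ring
    rw [h3, Complex.exp_mul_I, ← Complex.ofReal_cos, ← Complex.ofReal_sin, Real.cos_neg,
      Real.sin_neg, Real.cos_pi_div_two, Real.sin_pi_div_two]
    push_cast; ring
  rw [h1, ← mul_assoc]
  simp

/-- Move the charge `V` towards `W` in the direction `e^{iπt}`. -/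
noncomputable def moveRe (V W : K0 C →+ ℂ) (t : ℝ) : K0 C →+ ℂ :=
  V + (AddMonoidHom.mulRight (Complex.exp (Real.pi * t * Complex.I))).comp
    (Complex.ofRealHom.toAddMonoidHom.comp (rotRe W t - rotRe V t))

lemma moveRe_apply (V W : K0 C →+ ℂ) (t : ℝ) (x : K0 C) : moveRe V W t x =
    V x + ((rotRe W t x - rotRe V t x : ℝ) : ℂ) * Complex.exp (Real.pi * t * Complex.I) := rfl

lemma moveRe_rot (V W : K0 C →+ ℂ) (t : ℝ) (x : K0 C) :
    moveRe V W t x * Complex.exp (-(Real.pi * t * Complex.I)) =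
      V x * Complex.exp (-(Real.pi * t * Complex.I)) + ((rotRe W t x - rotRe V t x : ℝ) : ℂ) := by
  have h : Complex.exp (Real.pi * t * Complex.I) * Complex.exp (-(Real.pi * t * Complex.I)) =
      1 := by rw [← Complex.exp_add]; simp
  rw [moveRe_apply, add_mul, mul_assoc (((rotRe W t x - rotRe V t x : ℝ) : ℂ)), h, mul_one]

lemma rotIm_moveRe (V W : K0 C →+ ℂ) (t : ℝ) : rotIm (moveRe V W t) t = rotIm V t := by
  ext x
  rw [rotIm_apply, moveRe_rot, Complex.add_im, Complex.ofReal_im, add_zero, rotIm_apply]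

lemma rotRe_moveRe (V W : K0 C →+ ℂ) (t : ℝ) : rotRe (moveRe V W t) t = rotRe W t := by
  ext x
  rw [rotRe_apply, moveRe_rot, Complex.add_re, Complex.ofReal_re, ← rotRe_apply]
  ring

lemma norm_moveRe_sub (V W : K0 C →+ ℂ) (t : ℝ) (x : K0 C) :
    ‖moveRe V W t x - V x‖ ≤ ‖W x - V x‖ := by
  rw [moveRe_apply, add_sub_cancel_left, norm_mul, Complex.norm_real, Real.norm_eq_abs]
  have h1 : ‖Complex.exp (Real.pi * t * Complex.I)‖ = 1 := by
    have : (Real.pi * t * Complex.I : ℂ) = ((Real.pi * t : ℝ) : ℂ) * Complex.I := by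
      push_cast; ring
    rw [this, Complex.norm_exp_ofReal_mul_I]
  rw [h1, mul_one]
  exact abs_rotRe_sub_le W V t x

lemma norm_sub_moveRe (V W : K0 C →+ ℂ) (t : ℝ) (x : K0 C) :
    ‖W x - moveRe V W t x‖ ≤ ‖W x - V x‖ := by
  have h1 : ‖W x - moveRe V W t x‖ =
      ‖(W x - moveRe V W t x) * Complex.exp (-(Real.pi * t * Complex.I))‖ := by
    rw [norm_mul, norm_exp_rot, mul_one]
  have h2 : ‖W x - V x‖ = ‖(W x - V x) * Complex.exp (-(Real.pi * t * Complex.I))‖ := by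
    rw [norm_mul, norm_exp_rot, mul_one]
  rw [h1, h2, sub_mul, sub_mul, moveRe_rot]
  set a := W x * Complex.exp (-(Real.pi * t * Complex.I)) with ha
  set b := V x * Complex.exp (-(Real.pi * t * Complex.I)) with hb
  have h3 : a - (b + ((rotRe W t x - rotRe V t x : ℝ) : ℂ)) = ((a - b).im : ℂ) * Complex.I := by
    rw [rotRe_apply, rotRe_apply, ← ha, ← hb]
    apply Complex.ext <;> simp
  rw [h3, norm_mul, Complex.norm_I, mul_one, Complex.norm_real, Real.norm_eq_abs]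
  exact Complex.abs_im_le_norm _

section Linear

variable [IsTriangulated C] [Linear ℂ C] [∀ n : ℤ, (shiftFunctor C n).Linear ℂ]
variable [Module.Finite ℤ (K0 C)] [Module.Free ℤ (K0 C)]

/-- The classes of stable objects have norm at most two. -/
lemma StabCond.Stable.cls_le {σ : StabCond C} {φ : ℝ} {S : C} (hK : IsK3 C)
    (hS : σ.Stable φ S) : cls S ≠ 0 ∧ eulerForm hK (cls S) (cls S) ≤ 2 := by
  refine ⟨?_, ?_⟩
  · intro h0
    exact hS.2.1 (σ.Z_ne_zero hS.1 (by rw [h0, map_zero]))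
  · have hS' : SimpleIn (σ.sl.Heart (φ - 1)) S := StabCond.Stable.simple (by simpa using hS)
    exact (σ.sl.heart_ab (φ - 1)).self_le' hK hS'

/-- A bound on the classes of norm at most two gives a bound on all semistable classes. -/
lemma StabCond.bound_of_roots (σ : StabCond C) (hK : IsK3 C) {ε : ℝ} {W : K0 C →+ ℂ}
    (hW : ∀ x, x ≠ 0 → eulerForm hK x x ≤ 2 → ‖W x - σ.Z x‖ ≤ ε * ‖σ.Z x‖)
    {φ : ℝ} {X : C} (hX : σ.sl.P φ X) :
    ‖W (cls X) - σ.Z (cls X)‖ ≤ ε * ‖σ.Z (cls X)‖ := by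
  rw [← σ.re_eq_norm hX]
  have hg := σ.gen_stable hX
  clear hX
  induction hg with
  | zero h => simp [cls_of_isZero h]
  | @of S h =>
    rw [σ.re_eq_norm h.1]
    obtain ⟨h1, h2⟩ := StabCond.Stable.cls_le hK h
    exact hW _ h1 h2
  | ext hT _ _ ih1 ih2 =>
    rw [cls_mk hT]
    simp only [map_add]
    rw [add_sub_add_comm, mul_add]
    exact (norm_add_le _ _).trans (add_le_add ih1 ih2)

/-- **The uniform deformation theorem.** -/
theorem StabCond.exists_deformation (σ : StabCond C) (hK : IsK3 C) {ε δ : ℝ} (hε0 : 0 ≤ ε)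
    (hδ0 : 0 < δ) (hδ : δ ≤ 1 / 8) (hε : 2 * ε ≤ Real.sin (Real.pi * δ)) (W : K0 C →+ ℂ)
    (hW : ∀ x, x ≠ 0 → eulerForm hK x x ≤ 2 → ‖W x - σ.Z x‖ ≤ ε * ‖σ.Z x‖) :
    ∃ τ : StabCond C, τ.Z = W ∧ σ.phaseDist τ ≤ ENNReal.ofReal (2 * δ) := by
  have hε1 : ε ≤ 1 / 2 := by linarith [Real.sin_le_one (Real.pi * δ)]
  have hcount : Countable (K0 C) := countable_K0
  obtain ⟨t, ht1, ht2⟩ := exists_generic_t (fun x : K0 C => σ.Z x) (fun x : K0 C => W x)
  have H1 : σ.Gap t := by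
    intro X hX
    by_contra h0
    exact ht1 (cls X) (fun h => h0 (σ.Z_ne_zero hX h)) (σ.im_of_P hX)
  obtain ⟨τ₁, hZ1, hn1⟩ := H1.exists_deform hε0 hδ0 hδ (by linarith) (moveRe σ.Z W t)
    (rotIm_moveRe _ _ _) (fun φ X hX => by
      refine (norm_moveRe_sub _ _ _ _).trans ?_
      exact σ.bound_of_roots hK hW hX)
  have hroots : ∀ x, x ≠ 0 → eulerForm hK x x ≤ 2 → ‖W x - τ₁.Z x‖ ≤ (2 * ε) * ‖τ₁.Z x‖ := by
    intro x hx hx2
    rw [hZ1]
    have h1 := norm_sub_moveRe σ.Z W t x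
    have h2 := norm_moveRe_sub σ.Z W t x
    have h3 := hW x hx hx2
    have h4 : ‖σ.Z x‖ ≤ ‖moveRe σ.Z W t x‖ + ‖moveRe σ.Z W t x - σ.Z x‖ := by
      have := norm_sub_norm_le (σ.Z x) (moveRe σ.Z W t x)
      rw [norm_sub_rev] at this
      linarith
    have h5 : 0 ≤ ‖σ.Z x‖ := norm_nonneg _
    have h6 : ‖σ.Z x‖ ≤ 2 * ‖moveRe σ.Z W t x‖ := by nlinarith
    nlinarith
  have H2 : τ₁.Gap (t + 1 / 2) := by
    intro X hX
    by_contra h0
    obtain ⟨S, hS⟩ := τ₁.exists_stable hX h0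
    obtain ⟨hx0, hx2⟩ := StabCond.Stable.cls_le hK hS
    have h1 : τ₁.im (t + 1 / 2) (cls S) = 0 := τ₁.im_of_P hS.1
    have h2 : rotRe W t (cls S) = 0 := by
      have h3 : rotIm τ₁.Z (t + 1 / 2) (cls S) = 0 := h1
      rw [rotIm_half, hZ1, rotRe_moveRe] at h3
      linarith
    have h4 : W (cls S) = 0 := by
      by_contra hne
      exact ht2 (cls S) hne h2
    have h5 := hW _ hx0 hx2
    rw [h4, zero_sub, norm_neg] at h5
    have h6 : ‖σ.Z (cls S)‖ = 0 := by
      have := norm_nonneg (σ.Z (cls S))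
      nlinarith
    have h7 := hroots _ hx0 hx2
    have h8 := norm_moveRe_sub σ.Z W t (cls S)
    rw [h4, zero_sub, norm_neg, h6] at h8
    have h9 : σ.Z (cls S) = 0 := norm_eq_zero.1 h6
    rw [h9, sub_zero] at h8
    have h10 : τ₁.Z (cls S) = 0 := by
      rw [hZ1]
      exact norm_eq_zero.1 (le_antisymm h8 (norm_nonneg _))
    exact hS.2.1 (τ₁.Z_ne_zero hS.1 h10)
  obtain ⟨τ₂, hZ2, hn2⟩ := H2.exists_deform (ε := 2 * ε) (by linarith) hδ0 hδ hε W
    (by
      ext x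
      have : τ₁.im (t + 1 / 2) x = rotIm τ₁.Z (t + 1 / 2) x := rfl
      rw [this, rotIm_half, rotIm_half, hZ1, rotRe_moveRe])
    (fun φ X hX => τ₁.bound_of_roots hK hroots hX)
  refine ⟨τ₂, hZ2, ?_⟩
  refine (σ.phaseDist_triangle τ₁ τ₂).trans ?_
  have h1 := StabCond.Near.phaseDist_le hn1
  have h2 := StabCond.Near.phaseDist_le hn2
  refine (add_le_add h1 h2).trans ?_
  rw [← ENNReal.ofReal_add hδ0.le hδ0.le]
  apply ENNReal.ofReal_le_ofReal
  linarith

end Linear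

end Pool.Stab
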