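import Mathlib
import Pool.Agent.Work.MP_841263_st.Lattice

/-!
# The regular set of central charges

`K` is an abelian group with a symmetric form `B` (the Grothendieck group with the Euler form).
-/

namespace Pool.Stab

variable {K : Type*} [AddCommGroup K]

/-- The topology of pointwise convergence on `Hom(K, ℂ)`. -/
noncomputable instance homTopology : TopologicalSpace (K →+ ℂ) :=
  TopologicalSpace.induced (fun (W : K →+ ℂ) (x : K) => W x) inferInstance

/-- The regular charges: the homomorphisms `W : K → ℂ` which do not vanish on the roots (the
elements with `B(x, x) = 2`) and which are injective on the radical `⊗ ℝ`: independent elements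
of the radical have `ℝ`-independent images. -/
def Xreg (B : K →+ K →+ ℤ) : Set (K →+ ℂ) :=
  {W | (∀ x : K, B x x = 2 → W x ≠ 0) ∧
    ∀ r ∈ radical B, ∀ s ∈ radical B, LinearIndependent ℤ ![r, s] →
      LinearIndependent ℝ ![W r, W s]}

/-- The orientation of the pair `W r, W s` of complex numbers. -/
noncomputable def orientOf (W : K →+ ℂ) (r s : K) : ℝ := ((starRingEnd ℂ) (W r) * W s).im

end Pool.Stab
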