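import Mathlib
import Pool.Agent.Work.MP_841263_c.CDefs
import Pool.Agent.Work.MP_841263_st.Radical2
import Pool.Agent.Work.MP_841263_st.Top

/-!
# The regular set of central charges: control of the charge on the roots
-/

open Topology Filter

set_option linter.unusedSectionVars false

namespace Pool.Stab

section topology

variable {K : Type*} [AddCommGroup K]

lemma continuous_eval (x : K) : Continuous (fun W : K →+ ℂ => W x) :=
  (continuous_apply x).comp continuous_induced_dom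

lemma continuous_hom_iff {A : Type*} [TopologicalSpace A] {f : A → (K →+ ℂ)} :
    Continuous f ↔ ∀ x, Continuous (fun a => f a x) := by
  rw [continuous_induced_rng, continuous_pi_iff]
  rfl

end topology

lemma orient_iff {z w : ℂ} :
    LinearIndependent ℝ ![z, w] ↔ ((starRingEnd ℂ) z * w).im ≠ 0 := by
  rw [LinearIndependent.pair_iff]
  constructor
  · intro h h0
    have hz : z ≠ 0 := by
      rintro rfl
      have := (h 1 0 (by simp)).1
      exact one_ne_zero this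
    obtain ⟨c, hc⟩ := orient_zero_dep h0 hz
    have h1 := (h c (-1) (by rw [hc]; simp)).2
    norm_num at h1
  · intro h s t hst
    have e1 : s * z.re + t * w.re = 0 := by simpa using congrArg Complex.re hst
    have e2 : s * z.im + t * w.im = 0 := by simpa using congrArg Complex.im hst
    have e3 : ((starRingEnd ℂ) z * w).im = z.re * w.im - z.im * w.re := by
      simp [Complex.mul_im]; ring
    rw [e3] at h
    have h1 : t * (z.re * w.im - z.im * w.re) = 0 := by linear_combination z.re * e2 - z.im * e1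
    have h2 : s * (z.re * w.im - z.im * w.re) = 0 := by linear_combination w.im * e1 - w.re * e2
    exact ⟨(mul_eq_zero.1 h2).resolve_right h, (mul_eq_zero.1 h1).resolve_right h⟩

section

variable {K : Type*} [AddCommGroup K] [Module.Finite ℤ K] [Module.Free ℤ K]

/-- The norm of a charge with respect to a basis. -/
noncomputable def nC (V : K →+ ℂ) : ℝ := ∑ i, ‖V (Module.Free.chooseBasis ℤ K i)‖

lemma nC_nonneg (V : K →+ ℂ) : 0 ≤ nC V := Finset.sum_nonneg (fun _ _ => norm_nonneg _)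

lemma exists_nC_bound (x : K) : ∃ c : ℝ, 0 ≤ c ∧ ∀ V : K →+ ℂ, ‖V x‖ ≤ c * nC V := by
  set b := Module.Free.chooseBasis ℤ K with hb
  refine ⟨∑ i, |(b.repr x i : ℝ)|, Finset.sum_nonneg (fun _ _ => abs_nonneg _), ?_⟩
  intro V
  have h1 : V x = ∑ i, ((b.repr x i : ℤ) : ℂ) * V (b i) := by
    conv_lhs => rw [← b.sum_repr x]
    rw [map_sum]
    refine Finset.sum_congr rfl (fun i _ => ?_)
    rw [map_zsmul, zsmul_eq_mul]
  rw [h1, Finset.sum_mul]
  refine (norm_sum_le _ _).trans (Finset.sum_le_sum (fun i _ => ?_))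
  rw [norm_mul, Complex.norm_intCast]
  refine mul_le_mul_of_nonneg_left ?_ (abs_nonneg _)
  exact Finset.single_le_sum (f := fun i => ‖V (b i)‖) (fun _ _ => norm_nonneg _)
    (Finset.mem_univ i)

variable {B : K →+ K →+ ℤ}

lemma int_coords_bound {z w : ℂ} {m n : ℤ} :
    |(n : ℝ)| * |((starRingEnd ℂ) z * w).im| ≤ ‖z‖ * ‖(m : ℂ) * z + (n : ℂ) * w‖ ∧
    |(m : ℝ)| * |((starRingEnd ℂ) z * w).im| ≤ ‖w‖ * ‖(m : ℂ) * z + (n : ℂ) * w‖ := by
  set v : ℂ := (m : ℂ) * z + (n : ℂ) * w with hv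
  have h1 : ((starRingEnd ℂ) z * v).im = n * ((starRingEnd ℂ) z * w).im := by
    rw [hv]
    simp [Complex.mul_im, Complex.mul_re]
    ring
  have h2 : ((starRingEnd ℂ) w * v).im = - (m * ((starRingEnd ℂ) z * w).im) := by
    rw [hv]
    simp [Complex.mul_im, Complex.mul_re]
    ring
  constructor
  · rw [← abs_mul, ← h1]
    refine (Complex.abs_im_le_norm _).trans ?_
    rw [norm_mul, RCLike.norm_conj]
  · rw [← abs_mul, ← abs_neg (_ * _), ← h2]
    refine (Complex.abs_im_le_norm _).trans ?_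
    rw [norm_mul, RCLike.norm_conj]

/-- **Control.** A regular charge controls all charges on the elements of norm at most two. -/
lemma Xreg.control (hB : IsPSD B) (heven : ∀ x, Even (B x x))
    (hR : Module.finrank ℤ (radical B) = 2) {W : K →+ ℂ} (hW : W ∈ Xreg B) :
    ∃ M : ℝ, 0 ≤ M ∧ ∀ (V : K →+ ℂ) (x : K), x ≠ 0 → B x x ≤ 2 → ‖V x‖ ≤ M * nC V * ‖W x‖ := by
  classical
  obtain ⟨r, hr, s, hs, hspan, hind⟩ := exists_basis_of_finrank_two _ hR
  obtain ⟨F, hF⟩ := hB.finite_mod_radical 2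
  obtain ⟨hW1, hW2⟩ := hW
  have hli : LinearIndependent ℤ ![r, s] := by
    rw [LinearIndependent.pair_iff]
    exact hind
  have hor : ((starRingEnd ℂ) (W r) * W s).im ≠ 0 := orient_iff.1 (hW2 r hr s hs hli)
  set o : ℝ := |((starRingEnd ℂ) (W r) * W s).im| with ho
  have ho0 : 0 < o := abs_pos.2 hor
  choose c hc0 hc using fun x : K => exists_nC_bound x
  -- nonvanishing
  have hne : ∀ x, x ≠ 0 → B x x ≤ 2 → W x ≠ 0 := by
    intro x hx hx2 h0
    obtain ⟨k, hk⟩ := heven x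
    have h1 := hB.nonneg x
    have h2 : B x x = 0 ∨ B x x = 2 := by omega
    rcases h2 with h2 | h2
    · obtain ⟨m, n, rfl⟩ := hspan x (hB.mem_radical_of_self h2)
      have h3 : LinearIndependent ℝ ![W r, W s] := hW2 r hr s hs hli
      rw [LinearIndependent.pair_iff] at h3
      have h4 := h3 m n (by
        rw [map_add, map_zsmul, map_zsmul] at h0
        simpa using h0)
      have hm : m = 0 := by exact_mod_cast h4.1
      have hn : n = 0 := by exact_mod_cast h4.2
      apply hx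
      rw [hm, hn]; simp
    · exact hW1 x h2 h0
  set A1 : ℝ := ∑ f ∈ F, c f with hA1
  set A2 : ℝ := ∑ f ∈ F, ‖W f‖ with hA2
  have hA1' : ∀ f ∈ F, c f ≤ A1 := fun f hf => Finset.single_le_sum (f := c) (fun x _ => hc0 x) hf
  have hA2' : ∀ f ∈ F, ‖W f‖ ≤ A2 :=
    fun f hf => Finset.single_le_sum (f := fun f => ‖W f‖) (fun x _ => norm_nonneg _) hf
  have hA10 : 0 ≤ A1 := Finset.sum_nonneg (fun x _ => hc0 x)
  have hA20 : 0 ≤ A2 := Finset.sum_nonneg (fun x _ => norm_nonneg _)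
  -- the coefficients are controlled by W
  have hcoef : ∀ (f : K) (m n : ℤ), f ∈ F →
      |(m : ℝ)| ≤ ‖W s‖ / o * (‖W (f + (m • r + n • s))‖ + A2) ∧
      |(n : ℝ)| ≤ ‖W r‖ / o * (‖W (f + (m • r + n • s))‖ + A2) := by
    intro f m n hf
    have h1 : ‖(m : ℂ) * W r + (n : ℂ) * W s‖ ≤ ‖W (f + (m • r + n • s))‖ + A2 := by
      have e1 : (m : ℂ) * W r + (n : ℂ) * W s = W (f + (m • r + n • s)) - W f := by
        simp [map_add, map_zsmul]
      rw [e1]
      exact (norm_sub_le _ _).trans (add_le_add le_rfl (hA2' f hf))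
    obtain ⟨h2, h3⟩ := int_coords_bound (z := W r) (w := W s) (m := m) (n := n)
    rw [← ho] at h2 h3
    constructor
    · rw [div_mul_eq_mul_div, le_div_iff₀ ho0]
      exact h3.trans (mul_le_mul_of_nonneg_left h1 (norm_nonneg _))
    · rw [div_mul_eq_mul_div, le_div_iff₀ ho0]
      exact h2.trans (mul_le_mul_of_nonneg_left h1 (norm_nonneg _))
  -- the values of W are bounded below
  obtain ⟨c0, hc00, hlow⟩ : ∃ c0 : ℝ, 0 < c0 ∧ ∀ x, x ≠ 0 → B x x ≤ 2 → c0 ≤ ‖W x‖ := by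
    obtain ⟨N, hN⟩ := exists_nat_ge ((‖W s‖ / o + ‖W r‖ / o) * (1 + A2))
    set T : Set K := (fun p : K × ℤ × ℤ => p.1 + (p.2.1 • r + p.2.2 • s)) ''
      ((F : Set K) ×ˢ (Set.Icc (-(N : ℤ)) N ×ˢ Set.Icc (-(N : ℤ)) N)) with hT
    have hTfin : T.Finite :=
      (F.finite_toSet.prod ((Set.finite_Icc _ _).prod (Set.finite_Icc _ _))).image _
    have hmem : ∀ x, B x x ≤ 2 → ‖W x‖ ≤ 1 → x ∈ T := by
      intro x hx hx1
      obtain ⟨f, hf, hrad⟩ := hF x hx
      obtain ⟨m, n, hmn⟩ := hspan _ hrad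
      have hx' : x = f + (m • r + n • s) := by rw [← hmn]; abel
      obtain ⟨h1, h2⟩ := hcoef f m n hf
      rw [← hx'] at h1 h2
      have h3 : 0 ≤ ‖W s‖ / o := by positivity
      have h4 : 0 ≤ ‖W r‖ / o := by positivity
      have h5 : |(m : ℝ)| ≤ N := by
        refine (h1.trans ?_).trans hN
        nlinarith [mul_le_mul_of_nonneg_left (add_le_add hx1 (le_refl A2)) h3]
      have h6 : |(n : ℝ)| ≤ N := by
        refine (h2.trans ?_).trans hN
        nlinarith [mul_le_mul_of_nonneg_left (add_le_add hx1 (le_refl A2)) h4]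
      have h7 : |m| ≤ (N : ℤ) := by exact_mod_cast h5
      have h8 : |n| ≤ (N : ℤ) := by exact_mod_cast h6
      refine ⟨(f, m, n), ⟨hf, abs_le.1 h7, abs_le.1 h8⟩, hx'.symm⟩
    set T' : Set K := {x ∈ T | W x ≠ 0} with hT'
    have hT'fin : T'.Finite := hTfin.subset (Set.sep_subset _ _)
    by_cases hTne : T'.Nonempty
    · obtain ⟨x₀, hx₀, hmin⟩ := Set.exists_min_image T' (fun x => ‖W x‖) hT'fin hTne
      refine ⟨min ‖W x₀‖ 1, lt_min (norm_pos_iff.2 hx₀.2) one_pos, ?_⟩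
      intro x hx hx2
      by_cases h1 : ‖W x‖ ≤ 1
      · exact (min_le_left _ _).trans (hmin x ⟨hmem x hx2 h1, hne x hx hx2⟩)
      · push Not at h1
        exact (min_le_right _ _).trans h1.le
    · refine ⟨1, one_pos, ?_⟩
      intro x hx hx2
      by_contra h1
      push Not at h1
      exact hTne ⟨x, hmem x hx2 h1.le, hne x hx hx2⟩
  set D : ℝ := ‖W s‖ / o * c r + ‖W r‖ / o * c s with hD
  have hD0 : 0 ≤ D := by
    have := hc0 r
    have := hc0 s
    positivity
  refine ⟨(A1 + D * A2) / c0 + D, by positivity, ?_⟩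
  intro V x hx hx2
  obtain ⟨f, hf, hrad⟩ := hF x hx2
  obtain ⟨m, n, hmn⟩ := hspan _ hrad
  have hx' : x = f + (m • r + n • s) := by rw [← hmn]; abel
  obtain ⟨h1, h2⟩ := hcoef f m n hf
  rw [← hx'] at h1 h2
  have hV0 := nC_nonneg V
  have h3 : ‖V x‖ ≤ ‖V f‖ + (|(m : ℝ)| * ‖V r‖ + |(n : ℝ)| * ‖V s‖) := by
    rw [hx', map_add, map_add, map_zsmul, map_zsmul]
    refine (norm_add_le _ _).trans (add_le_add le_rfl ?_)
    refine (norm_add_le _ _).trans ?_
    rw [zsmul_eq_mul, zsmul_eq_mul, norm_mul, norm_mul, Complex.norm_intCast,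
      Complex.norm_intCast]
  have h4 : ‖V f‖ ≤ A1 * nC V := (hc f V).trans (mul_le_mul_of_nonneg_right (hA1' f hf) hV0)
  have h5 : |(m : ℝ)| * ‖V r‖ ≤ ‖W s‖ / o * (‖W x‖ + A2) * (c r * nC V) :=
    mul_le_mul h1 (hc r V) (norm_nonneg _) (by positivity)
  have h6 : |(n : ℝ)| * ‖V s‖ ≤ ‖W r‖ / o * (‖W x‖ + A2) * (c s * nC V) :=
    mul_le_mul h2 (hc s V) (norm_nonneg _) (by positivity)
  have h7 : ‖V x‖ ≤ (A1 + D * A2 + D * ‖W x‖) * nC V := by
    rw [hD]
    nlinarith
  have h8 := hlow x hx hx2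
  have h9 : A1 + D * A2 ≤ (A1 + D * A2) / c0 * ‖W x‖ := by
    rw [div_mul_eq_mul_div, le_div_iff₀ hc00]
    exact mul_le_mul_of_nonneg_left h8 (by positivity)
  calc ‖V x‖ ≤ (A1 + D * A2 + D * ‖W x‖) * nC V := h7
    _ ≤ ((A1 + D * A2) / c0 * ‖W x‖ + D * ‖W x‖) * nC V :=
        mul_le_mul_of_nonneg_right (by linarith) hV0
    _ = ((A1 + D * A2) / c0 + D) * nC V * ‖W x‖ := by ring

end

end Pool.Stab
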