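import Mathlib
import Pool.Agent.Work.MP_841263_c.Period

/-!
# The two halves of the set of regular charges are path connected
-/

open Topology Filter

set_option linter.unusedSectionVars false

namespace Pool.Stab

variable {K : Type*} [AddCommGroup K]

/-- The real linear map `z ↦ a z + b z̄` applied to a charge. -/
noncomputable def gl (a b : ℂ) (W : K →+ ℂ) : K →+ ℂ :=
  (AddMonoidHom.mulLeft a).comp W + (AddMonoidHom.mulLeft b).comp
    ((starRingEnd ℂ).toAddMonoidHom.comp W)

lemma gl_apply (a b : ℂ) (W : K →+ ℂ) (x : K) :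
    gl a b W x = a * W x + b * (starRingEnd ℂ) (W x) := rfl

lemma gl_one (W : K →+ ℂ) : gl 1 0 W = W := by
  ext x
  rw [gl_apply]; simp

lemma gl_orient (a b z w : ℂ) :
    ((starRingEnd ℂ) (a * z + b * (starRingEnd ℂ) z) * (a * w + b * (starRingEnd ℂ) w)).im =
      (Complex.normSq a - Complex.normSq b) * ((starRingEnd ℂ) z * w).im := by
  simp [Complex.mul_im, Complex.mul_re, Complex.normSq_apply]
  ring

lemma gl_ne_zero {a b z : ℂ} (hab : Complex.normSq b < Complex.normSq a) (hz : z ≠ 0) :
    a * z + b * (starRingEnd ℂ) z ≠ 0 := by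
  intro h
  have h1 : a * z = - (b * (starRingEnd ℂ) z) := by linear_combination h
  have h2 := congrArg Complex.normSq h1
  rw [Complex.normSq_neg, Complex.normSq_mul, Complex.normSq_mul, Complex.normSq_conj] at h2
  have h3 : 0 < Complex.normSq z := Complex.normSq_pos.2 hz
  have h4 := mul_right_cancel₀ h3.ne' h2
  linarith

variable {B : K →+ K →+ ℤ}

lemma gl_mem {a b : ℂ} (hab : Complex.normSq b < Complex.normSq a) {W : K →+ ℂ}
    (hW : W ∈ Xreg B) : gl a b W ∈ Xreg B := by
  refine ⟨fun x hx => gl_ne_zero hab (hW.1 x hx), ?_⟩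
  intro r hr s hs hrs
  rw [orient_iff, gl_apply, gl_apply, gl_orient]
  exact mul_ne_zero (by linarith) (orient_iff.1 (hW.2 r hr s hs hrs))

lemma joinedIn_of_image {T : Type*} [TopologicalSpace T] {f : T → (K →+ ℂ)}
    (hf : Continuous f) {s : Set T} (hs : IsPathConnected s) {X : Set (K →+ ℂ)}
    (hfs : ∀ t ∈ s, f t ∈ X) {a b : T} (ha : a ∈ s) (hb : b ∈ s) : JoinedIn X (f a) (f b) := by
  have h1 := hs.image hf
  have h2 := h1.joinedIn (f a) ⟨a, ha, rfl⟩ (f b) ⟨b, hb, rfl⟩
  refine h2.mono ?_
  rintro _ ⟨t, ht, rfl⟩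
  exact hfs t ht

lemma continuous_gl {A : Type*} [TopologicalSpace A] {a b : A → ℂ} (ha : Continuous a)
    (hb : Continuous b) (W : K →+ ℂ) : Continuous (fun t => gl (a t) (b t) W) := by
  rw [continuous_hom_iff]
  intro x
  simp only [gl_apply]
  fun_prop

/-- Orientation preserving real linear maps are connected to the identity. -/
lemma joinedIn_gl {a b : ℂ} (hab : Complex.normSq b < Complex.normSq a) {W : K →+ ℂ}
    (hW : W ∈ Xreg B) : JoinedIn (Xreg B) W (gl a b W) := by
  have ha0 : a ≠ 0 := by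
    rintro rfl
    rw [map_zero] at hab
    exact absurd (Complex.normSq_nonneg b) (not_le.2 hab)
  -- from 1 to a
  have h1 : JoinedIn (Xreg B) (gl 1 0 W) (gl a 0 W) := by
    refine joinedIn_of_image (f := fun t : ℂ => gl t 0 W)
      (continuous_gl continuous_id continuous_const W)
      (isPathConnected_compl_singleton_of_one_lt_rank (E := ℂ) (by
        rw [Complex.rank_real_complex]; norm_num) (0 : ℂ)) ?_ (a := 1) (b := a) ?_ ?_
    · intro t ht
      apply gl_mem _ hW
      rw [map_zero]
      exact Complex.normSq_pos.2 ht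
    · simp
    · simpa using ha0
  have h2 : JoinedIn (Xreg B) (gl a 0 W) (gl a b W) := by
    have h3 := joinedIn_of_image (f := fun t : ℝ => gl a ((t : ℂ) * b) W)
      (continuous_gl continuous_const (by fun_prop) W)
      (s := Set.Icc (0 : ℝ) 1) ((convex_Icc 0 1).isPathConnected ⟨0, by simp⟩)
      (X := Xreg B) ?_ (a := 0) (b := 1) (by simp) (by simp)
    · simpa using h3
    · intro t ht
      apply gl_mem _ hW
      rw [Complex.normSq_mul, Complex.normSq_ofReal]
      have h4 := Complex.normSq_nonneg b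
      have h5 : t * t ≤ 1 := by nlinarith [ht.1, ht.2]
      nlinarith
  rw [gl_one] at h1
  exact h1.trans h2

variable [Module.Finite ℤ K] [Module.Free ℤ K]

/-- Regular charges which agree on the radical are connected. -/
lemma joinedIn_of_eq_radical {V W : K →+ ℂ} (hV : V ∈ Xreg B) (hW : W ∈ Xreg B)
    (h : ∀ x ∈ radical B, V x = W x) : JoinedIn (Xreg B) V W := by
  have hcount : Countable K := by
    obtain ⟨n, f, hf⟩ := Module.Finite.exists_fin' ℤ K
    exact hf.countable
  set f : ℂ → (K →+ ℂ) := fun z => gl (1 - z) 0 V + gl z 0 W with hf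
  have hfz : ∀ z x, f z x = (1 - z) * V x + z * W x := by
    intro z x
    simp [hf, gl_apply]
  have hcont : Continuous f := by
    rw [continuous_hom_iff]
    intro x
    simp only [hfz]
    fun_prop
  set bad : Set ℂ := ⋃ x : {x : K // B x x = 2}, {z : ℂ | (1 - z) * V x.1 + z * W x.1 = 0}
    with hbad
  have hbadc : bad.Countable := by
    refine Set.countable_iUnion (fun x => ?_)
    refine Set.Subsingleton.countable ?_
    intro z hz w hw
    have hz' : (1 - z) * V x.1 + z * W x.1 = 0 := hz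
    have hw' : (1 - w) * V x.1 + w * W x.1 = 0 := hw
    have hne : W x.1 - V x.1 ≠ 0 := by
      intro h0
      have h1 : V x.1 = 0 := by linear_combination hz' - z * h0
      exact hV.1 x.1 x.2 h1
    have h2 : (z - w) * (W x.1 - V x.1) = 0 := by linear_combination hz' - hw'
    have := (mul_eq_zero.1 h2).resolve_right hne
    linear_combination this
  have hpc := hbadc.isPathConnected_compl_of_one_lt_rank (by
    rw [Complex.rank_real_complex]; norm_num)
  have h0 : (0 : ℂ) ∈ badᶜ := by
    intro hcon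
    obtain ⟨x, hx⟩ := Set.mem_iUnion.1 hcon
    have hx' : (1 - 0) * V x.1 + 0 * W x.1 = 0 := hx
    exact hV.1 x.1 x.2 (by simpa using hx')
  have h1 : (1 : ℂ) ∈ badᶜ := by
    intro hcon
    obtain ⟨x, hx⟩ := Set.mem_iUnion.1 hcon
    have hx' : (1 - 1) * V x.1 + 1 * W x.1 = 0 := hx
    exact hW.1 x.1 x.2 (by simpa using hx')
  have key := joinedIn_of_image (X := Xreg B) hcont hpc ?_ h0 h1
  · have e0 : f 0 = V := by ext x; rw [hfz]; simp
    have e1 : f 1 = W := by ext x; rw [hfz]; simp
    rwa [e0, e1] at key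
  · intro z hz
    refine ⟨fun x hx => ?_, ?_⟩
    · rw [hfz]
      intro hcon
      exact hz (Set.mem_iUnion.2 ⟨⟨x, hx⟩, hcon⟩)
    · intro r hr s hs hrs
      have e1 : f z r = V r := by rw [hfz, ← h r hr]; ring
      have e2 : f z s = V s := by rw [hfz, ← h s hs]; ring
      rw [e1, e2]
      exact hV.2 r hr s hs hrs

/-- **The set of regular charges with a given orientation is path connected.** -/
theorem joinedIn_Xreg (hR : Module.finrank ℤ (radical B) = 2) {r s : K} (hr : r ∈ radical B)
    (hs : s ∈ radical B) (hrs : LinearIndependent ℤ ![r, s]) {V W : K →+ ℂ} (hV : V ∈ Xreg B)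
    (hW : W ∈ Xreg B) (hVW : 0 < orientOf V r s * orientOf W r s) :
    JoinedIn (Xreg B) V W := by
  -- the real linear map which maps `V r, V s` to `W r, W s`
  set z₁ := V r with hz₁
  set z₂ := V s with hz₂
  set w₁ := W r with hw₁
  set w₂ := W s with hw₂
  have hVo : orientOf V r s = ((starRingEnd ℂ) z₁ * z₂).im := rfl
  have hWo : orientOf W r s = ((starRingEnd ℂ) w₁ * w₂).im := rfl
  rw [hVo, hWo] at hVW
  have hvo : ((starRingEnd ℂ) z₁ * z₂).im ≠ 0 := by
    intro h0; rw [h0, zero_mul] at hVW; exact lt_irrefl _ hVW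
  set D : ℂ := z₁ * (starRingEnd ℂ) z₂ - (starRingEnd ℂ) z₁ * z₂ with hD
  have hD' : D = -(2 * ((starRingEnd ℂ) z₁ * z₂).im * Complex.I) := by
    rw [hD]
    apply Complex.ext
    · simp [Complex.mul_re, Complex.mul_im, mul_comm]
    · simp [Complex.mul_re, Complex.mul_im]; ring
  have hD0 : D ≠ 0 := by
    rw [hD']
    simp only [ne_eq, neg_eq_zero, mul_eq_zero, OfNat.ofNat_ne_zero, false_or, Complex.I_ne_zero,
      or_false]
    exact_mod_cast hvo
  set a : ℂ := (w₁ * (starRingEnd ℂ) z₂ - w₂ * (starRingEnd ℂ) z₁) / D with ha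
  set b : ℂ := (z₁ * w₂ - z₂ * w₁) / D with hb
  have h1 : a * z₁ + b * (starRingEnd ℂ) z₁ = w₁ := by
    rw [ha, hb]
    field_simp
    rw [hD]
    ring
  have h2 : a * z₂ + b * (starRingEnd ℂ) z₂ = w₂ := by
    rw [ha, hb]
    field_simp
    rw [hD]
    ring
  have hab : Complex.normSq b < Complex.normSq a := by
    have h3 := gl_orient a b z₁ z₂
    rw [h1, h2] at h3
    rw [h3] at hVW
    have h4 : 0 < (Complex.normSq a - Complex.normSq b) *
        (((starRingEnd ℂ) z₁ * z₂).im * ((starRingEnd ℂ) z₁ * z₂).im) := by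
      linarith
    have h5 : 0 < ((starRingEnd ℂ) z₁ * z₂).im * ((starRingEnd ℂ) z₁ * z₂).im :=
      mul_self_pos.2 hvo
    have := pos_of_mul_pos_left h4 h5.le
    linarith
  have hj := joinedIn_gl hab hV
  refine hj.trans (joinedIn_of_eq_radical (gl_mem hab hV) hW ?_)
  intro x hx
  have hyz : ∀ n m : ℤ, n • r = m • s → n = 0 ∧ m = 0 := by
    intro n m hnm
    have := LinearIndependent.pair_iff.1 hrs n (-m) (by rw [neg_smul, hnm]; abel)
    exact ⟨this.1, by simpa using this.2⟩
  obtain ⟨N, m, n, hN, hx'⟩ := exists_dep_of_finrank_two _ hR hx hr hs hyz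
  have hNc : (N : ℂ) ≠ 0 := by exact_mod_cast hN
  have e1 : (N : ℂ) * V x = m * z₁ + n * z₂ := by
    have := congrArg V hx'
    simpa [map_zsmul] using this
  have e2 : (N : ℂ) * W x = m * w₁ + n * w₂ := by
    have := congrArg W hx'
    simpa [map_zsmul] using this
  have e3 : (N : ℂ) * (starRingEnd ℂ) (V x) = m * (starRingEnd ℂ) z₁ + n * (starRingEnd ℂ) z₂ := by
    have := congrArg (starRingEnd ℂ) e1
    simpa using this
  apply mul_left_cancel₀ hNc
  rw [gl_apply, e2, ← h1, ← h2]
  linear_combination a * e1 + b * e3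

end Pool.Stab
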