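import Mathlib
import Pool.Agent.Work.MP_841263_c.AbsCov
import Pool.Agent.Work.MP_841263_c.PathConn
import Pool.Agent.Work.MP_841263_c.Deform
import Pool.Agent.Work.MP_841263_r.Main

/-!
# The period map is a covering
-/

open CategoryTheory CategoryTheory.Limits CategoryTheory.Pretriangulated
open scoped ZeroObject TensorProduct
open Topology Filter

set_option backward.isDefEq.respectTransparency false
set_option backward.defeqAttrib.useBackward true
set_option linter.unusedSectionVars false

namespace Pool.Stab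

universe v u

variable {C : Type u} [Category.{v} C] [Preadditive C] [HasZeroObject C] [HasShift C ℤ]
  [∀ n : ℤ, (shiftFunctor C n).Additive] [Pretriangulated C] [IsTriangulated C] [Linear ℂ C]
  [∀ n : ℤ, (shiftFunctor C n).Linear ℂ]

/-- The charge of every stability condition is regular. -/
theorem EllipticSetting.mem_Xreg (h : EllipticSetting C) (σ : StabCond C) :
    σ.Z ∈ Xreg (eulerForm h.k3) := by
  have := h.finite
  have := h.free
  refine ⟨?_, ?_⟩
  · intro x hx
    refine h.Z_ne_zero σ hx.le ?_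
    rintro rfl
    simp at hx
  · intro r hr s hs hrs
    rw [orient_iff]
    refine σ.orient_ne_zero h.k3 h.psd' h.rank h.indec hr hs ?_
    intro n m hnm
    have := LinearIndependent.pair_iff.1 hrs n (-m) (by rw [neg_smul, hnm]; abel)
    exact ⟨this.1, by simpa using this.2⟩

/-- The period map. -/
noncomputable def EllipticSetting.period (h : EllipticSetting C) (σ : StabCond C) :
    Xreg (eulerForm h.k3) := ⟨σ.Z, h.mem_Xreg σ⟩

lemma nhds_stab (σ : StabCond C) : 𝓝 σ =
    (⨅ r > (0 : ENNReal), 𝓟 {τ : StabCond C | τ.phaseDist σ < r}) ⊓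
      comap (fun τ : StabCond C => τ.Z) (𝓝 σ.Z) := by
  have h1 : 𝓝 σ = (@nhds _ (phasePseudo (C := C)).toUniformSpace.toTopologicalSpace σ) ⊓
      (@nhds _ (TopologicalSpace.induced (fun (σ : StabCond C) (x : K0 C) => σ.Z x)
        inferInstance) σ) :=
    @nhds_inf _ (phasePseudo (C := C)).toUniformSpace.toTopologicalSpace
      (TopologicalSpace.induced (fun (σ : StabCond C) (x : K0 C) => σ.Z x) inferInstance) σ
  rw [h1]
  congr 1
  · exact @EMetric.nhds_eq _ (phasePseudo (C := C)) σ
  · rw [nhds_induced]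
    have h2 : 𝓝 σ.Z = comap (fun (W : K0 C →+ ℂ) (x : K0 C) => W x) (𝓝 (fun x => σ.Z x)) :=
      nhds_induced _ _
    rw [h2, comap_comap]
    rfl

lemma nhds_stab' (h : EllipticSetting C) (σ : StabCond C) : 𝓝 σ =
    (⨅ r > (0 : ENNReal), 𝓟 {τ : StabCond C | τ.phaseDist σ < r}) ⊓
      comap h.period (𝓝 (h.period σ)) := by
  rw [nhds_stab, nhds_subtype_eq_comap, comap_comap]
  rfl

lemma nC_cont [Module.Finite ℤ (K0 C)] [Module.Free ℤ (K0 C)] (W₀ : K0 C →+ ℂ) :
    Continuous (fun W : K0 C →+ ℂ => nC (W - W₀)) := by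
  unfold nC
  refine continuous_finset_sum _ (fun i _ => ?_)
  simp only [AddMonoidHom.sub_apply]
  exact ((continuous_eval _).sub continuous_const).norm

/-- The period map has uniform local liftings. -/
theorem EllipticSetting.covData (h : EllipticSetting C) :
    CovData h.period (fun σ τ : StabCond C => σ.phaseDist τ) Set.univ where
  self := StabCond.phaseDist_self
  symm := StabCond.phaseDist_comm
  triangle := StabCond.phaseDist_triangle
  nhds_eq := nhds_stab' h
  isOpen := isOpen_univ
  eq_of := by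
    intro a b hab hd
    exact StabCond.eq_of_phaseDist (congrArg Subtype.val hab) hd
  lift := by
    rintro ⟨W₀, hW₀⟩ - r hr
    have := h.finite
    have := h.free
    obtain ⟨M, hM0, hM⟩ := Xreg.control h.psd' h.even h.rank hW₀
    -- the size of the neighbourhood
    obtain ⟨r', hr'0, hr'⟩ : ∃ r' : ℝ, 0 < r' ∧ ENNReal.ofReal r' < r := by
      rcases eq_or_ne r ⊤ with rfl | hne
      · exact ⟨1, one_pos, ENNReal.ofReal_lt_top⟩
      · have h1 : 0 < r.toReal := ENNReal.toReal_pos hr.ne' hne
        refine ⟨r.toReal / 2, by linarith, ?_⟩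
        rw [ENNReal.ofReal_lt_iff_lt_toReal (by linarith) hne]
        linarith
    set δ : ℝ := min (1 / 8) (r' / 2) with hδ
    have hδ0 : 0 < δ := lt_min (by norm_num) (by linarith)
    have hδ8 : δ ≤ 1 / 8 := min_le_left _ _
    have hδr : 2 * δ ≤ r' := by
      have : δ ≤ r' / 2 := min_le_right _ _
      linarith
    have hpi := Real.pi_pos
    have hsin : 0 < Real.sin (Real.pi * δ) :=
      Real.sin_pos_of_pos_of_lt_pi (by positivity) (by nlinarith)
    have hsin1 := Real.sin_le_one (Real.pi * δ)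
    set ε : ℝ := Real.sin (Real.pi * δ) / 2 with hε
    have hε0 : 0 < ε := by positivity
    have hε2 : ε ≤ 1 / 2 := by linarith
    set η : ℝ := ε / 4 with hη
    have hη0 : 0 < η := by positivity
    refine ⟨{W | M * nC (W.1 - W₀) < η}, ?_, ?_⟩
    · have hc : Continuous (fun W : Xreg (eulerForm h.k3) => M * nC (W.1 - W₀)) :=
        continuous_const.mul ((nC_cont W₀).comp continuous_subtype_val)
      refine hc.continuousAt.preimage_mem_nhds (isOpen_Iio.mem_nhds ?_)
      show M * nC (W₀ - W₀) < η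
      have : nC (W₀ - W₀) = 0 := by simp [nC]
      rw [this, mul_zero]
      exact hη0
    · intro σ hσ W₂ hW₂
      have hσ' : M * nC (σ.Z - W₀) < η := hσ
      have hW₂' : M * nC (W₂.1 - W₀) < η := hW₂
      obtain ⟨τ, hτ, hd⟩ := σ.exists_deformation h.k3 hε0.le hδ0 hδ8 (by linarith) W₂.1 (by
        intro x hx hx2
        have h1 := hM (σ.Z - W₀) x hx hx2
        have h2 := hM (W₂.1 - W₀) x hx hx2
        rw [AddMonoidHom.sub_apply] at h1 h2
        have h0 := norm_nonneg (W₀ x)
        have h3 : ‖σ.Z x - W₀ x‖ ≤ η * ‖W₀ x‖ :=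
          h1.trans (mul_le_mul_of_nonneg_right hσ'.le h0)
        have h4 : ‖W₂.1 x - W₀ x‖ ≤ η * ‖W₀ x‖ :=
          h2.trans (mul_le_mul_of_nonneg_right hW₂'.le h0)
        have h5 : ‖W₀ x‖ ≤ 2 * ‖σ.Z x‖ := by
          have h6 := norm_sub_norm_le (W₀ x) (σ.Z x)
          rw [norm_sub_rev] at h6
          nlinarith
        have h7 : ‖W₂.1 x - σ.Z x‖ ≤ ‖W₂.1 x - W₀ x‖ + ‖σ.Z x - W₀ x‖ := by
          have : W₂.1 x - σ.Z x = (W₂.1 x - W₀ x) - (σ.Z x - W₀ x) := by ring
          rw [this]
          exact norm_sub_le _ _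
        nlinarith)
      refine ⟨τ, Subtype.ext hτ, ?_⟩
      refine lt_of_le_of_lt (hd.trans (ENNReal.ofReal_le_ofReal hδr)) hr'

/-- **The period map is a covering map.** -/
theorem EllipticSetting.isCoveringMap_period (h : EllipticSetting C) :
    IsCoveringMap h.period := by
  rw [isCoveringMap_iff_isCoveringMapOn_univ]
  exact h.covData.isCoveringMapOn

end Pool.Stab
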