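import Mathlib
import Pool.Agent.Work.MP_841263_c.Cov

/-!
# Path components and the fundamental group of the space of stability conditions
-/

open CategoryTheory CategoryTheory.Limits CategoryTheory.Pretriangulated
open scoped ZeroObject TensorProduct
open Topology Filter

set_option backward.isDefEq.respectTransparency false
set_option backward.defeqAttrib.useBackward true
set_option linter.unusedSectionVars false

namespace Pool.Stab

universe v u

section abstract

variable {E X : Type*} [TopologicalSpace E] [TopologicalSpace X] {p : E → X}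

/-- Lifting of paths. -/
lemma exists_joined_lift (cov : IsCoveringMap p) (e : E) {x : X} (h : Joined (p e) x) :
    ∃ e' : E, Joined e e' ∧ p e' = x := by
  obtain ⟨γ⟩ := h
  refine ⟨cov.liftPath γ e γ.source 1, ⟨⟨cov.liftPath γ e γ.source, cov.liftPath_zero _ _ _, rfl⟩⟩,
    ?_⟩
  have := congrFun (cov.liftPath_lifts γ e γ.source) 1
  simpa using this

/-- A covering space is simply connected if and only if the fundamental group of the base acts
simply transitively on a fibre. -/
theorem simplyConnected_iff_monodromy (cov : IsCoveringMap p) (e₀ : E)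
    (hX : ∀ e : E, Joined (p e) (p e₀)) :
    SimplyConnectedSpace E ↔ ∀ e : p ⁻¹' {p e₀},
      ∃! γ : Path.Homotopic.Quotient (p e₀) (p e₀), cov.monodromy γ ⟨e₀, rfl⟩ = e := by
  constructor
  · intro hE e
    have he : p e.1 = p e₀ := e.2
    let Γ : Path.Homotopic.Quotient e₀ e.1 := .mk (PathConnectedSpace.somePath e₀ e.1)
    refine ⟨(Γ.map ⟨p, cov.continuous⟩).cast rfl he.symm, ?_, ?_⟩
    · refine cov.monodromy_eq_of_map_eq (ex := ⟨e₀, rfl⟩) (ey := e) Γ ?_
      rw [Path.Homotopic.Quotient.cast_cast, Path.Homotopic.Quotient.cast_rfl_rfl]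
    · intro γ' hγ'
      have hγ'' : cov.monodromy γ' ⟨e₀, rfl⟩ = e := hγ'
      subst hγ''
      have h1 := cov.map_liftPathQuotient γ' ⟨e₀, rfl⟩
      have h2 : Γ = cov.liftPathQuotient γ' ⟨e₀, rfl⟩ := Subsingleton.elim _ _
      rw [h2, h1, Path.Homotopic.Quotient.cast_cast, Path.Homotopic.Quotient.cast_rfl_rfl]
  · intro h
    have hj : ∀ e : E, Joined e₀ e := by
      intro e
      obtain ⟨e', h1, h2⟩ := exists_joined_lift cov e (hX e)
      obtain ⟨γ, hγ, -⟩ := h ⟨e', h2⟩
      have hΓ := cov.liftPathQuotient γ ⟨e₀, rfl⟩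
      rw [hγ] at hΓ
      have h3 : Joined e₀ e' := ⟨hΓ.out⟩
      exact h3.trans h1.symm
    have hpc : PathConnectedSpace E :=
      { nonempty := ⟨e₀⟩, joined := fun x y => (hj x).symm.trans (hj y) }
    have hsub : Subsingleton (FundamentalGroup E e₀) := by
      refine ⟨fun Γ₁ Γ₂ => ?_⟩
      have h1 := cov.monodromy_map (x := e₀) (y := e₀) Γ₁
      have h2 := cov.monodromy_map (x := e₀) (y := e₀) Γ₂
      have h3 := (h ⟨e₀, rfl⟩).unique h1 h2
      exact cov.injective_path_homotopic_map e₀ e₀ h3
    rw [simply_connected_iff_loops_nullhomotopic]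
    refine ⟨hpc, fun x γ => ?_⟩
    have hsub' : Subsingleton (FundamentalGroup E x) :=
      (FundamentalGroup.fundamentalGroupMulEquivOfPathConnected x e₀).toEquiv.subsingleton
    have h1 : (Path.Homotopic.Quotient.mk γ : Path.Homotopic.Quotient x x) =
        Path.Homotopic.Quotient.mk (Path.refl x) :=
      hsub'.elim (Path.Homotopic.Quotient.mk γ) (Path.Homotopic.Quotient.mk (Path.refl x))
    rwa [Path.Homotopic.Quotient.eq] at h1

end abstract

variable {C : Type u} [Category.{v} C] [Preadditive C] [HasZeroObject C] [HasShift C ℤ]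
  [∀ n : ℤ, (shiftFunctor C n).Additive] [Pretriangulated C] [IsTriangulated C] [Linear ℂ C]
  [∀ n : ℤ, (shiftFunctor C n).Linear ℂ]

lemma EllipticSetting.joined_period (h : EllipticSetting C) {r s : K0 C}
    (hr : r ∈ radical (eulerForm h.k3)) (hs : s ∈ radical (eulerForm h.k3))
    (hrs : LinearIndependent ℤ ![r, s]) (V W : Xreg (eulerForm h.k3))
    (hVW : 0 < orientOf V.1 r s * orientOf W.1 r s) : Joined V W := by
  have := h.finite
  have := h.free
  exact (joinedIn_Xreg h.rank hr hs hrs V.2 W.2 hVW).joined_subtype

/-- Every stability condition can be joined to one with any given regular charge of the same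
orientation. -/
theorem EllipticSetting.exists_joined (h : EllipticSetting C) {r s : K0 C}
    (hr : r ∈ radical (eulerForm h.k3)) (hs : s ∈ radical (eulerForm h.k3))
    (hrs : LinearIndependent ℤ ![r, s]) (σ : StabCond C) (W : Xreg (eulerForm h.k3))
    (hW : 0 < orientOf σ.Z r s * orientOf W.1 r s) :
    ∃ τ : StabCond C, Joined σ τ ∧ h.period τ = W :=
  exists_joined_lift h.isCoveringMap_period σ (h.joined_period hr hs hrs (h.period σ) W hW)

lemma orient_ne (h : EllipticSetting C) {r s : K0 C}
    (hr : r ∈ radical (eulerForm h.k3)) (hs : s ∈ radical (eulerForm h.k3))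
    (hrs : LinearIndependent ℤ ![r, s]) (σ : StabCond C) : σ.orient r s ≠ 0 := by
  exact orient_iff.1 ((h.mem_Xreg σ).2 r hr s hs hrs)

/-- **Criterion for simple connectedness.** -/
theorem EllipticSetting.simplyConnected_iff (h : EllipticSetting C) {r s : K0 C}
    (hr : r ∈ radical (eulerForm h.k3)) (hs : s ∈ radical (eulerForm h.k3))
    (hrs : LinearIndependent ℤ ![r, s]) (σ₀ : StabCond C) :
    SimplyConnectedSpace (StabCond C) ↔
      (∀ σ : StabCond C, 0 < orientOf σ.Z r s * orientOf σ₀.Z r s) ∧
      ∀ τ : h.period ⁻¹' {h.period σ₀},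
        ∃! γ : Path.Homotopic.Quotient (h.period σ₀) (h.period σ₀),
          h.isCoveringMap_period.monodromy γ ⟨σ₀, rfl⟩ = τ := by
  have key : ∀ σ : StabCond C, orientOf σ.Z r s = σ.orient r s := fun _ => rfl
  constructor
  · intro hS
    have hor : ∀ σ : StabCond C, 0 < orientOf σ.Z r s * orientOf σ₀.Z r s := by
      have hne₀ := orient_ne h hr hs hrs σ₀
      have hcont : Continuous (fun σ : StabCond C => σ.orient r s * σ₀.orient r s) :=
        (continuous_orient r s).mul continuous_const
      have hclopen : IsClopen {σ : StabCond C | 0 < σ.orient r s * σ₀.orient r s} := by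
        refine ⟨?_, isOpen_lt continuous_const hcont⟩
        have : {σ : StabCond C | 0 < σ.orient r s * σ₀.orient r s} =
            {σ : StabCond C | 0 ≤ σ.orient r s * σ₀.orient r s} := by
          ext σ
          constructor
          · intro h1
            have h2 : 0 < σ.orient r s * σ₀.orient r s := h1
            exact h2.le
          · intro h1
            have h2 : 0 ≤ σ.orient r s * σ₀.orient r s := h1
            exact lt_of_le_of_ne h2
              (mul_ne_zero (orient_ne h hr hs hrs σ) hne₀).symm
        rw [this]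
        exact isClosed_le continuous_const hcont
      have huniv := hclopen.eq_univ ⟨σ₀, mul_self_pos.2 hne₀⟩
      intro σ
      have : σ ∈ {σ : StabCond C | 0 < σ.orient r s * σ₀.orient r s} := by
        rw [huniv]; trivial
      exact this
    refine ⟨hor, ?_⟩
    exact (simplyConnected_iff_monodromy h.isCoveringMap_period σ₀
      (fun σ => h.joined_period hr hs hrs _ _ (hor σ))).1 hS
  · rintro ⟨hor, h2⟩
    exact (simplyConnected_iff_monodromy h.isCoveringMap_period σ₀
      (fun σ => h.joined_period hr hs hrs _ _ (hor σ))).2 h2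

end Pool.Stab
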